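import Pool.Agent.H82.LVP.RunBasics

/-!
# Definitions for the lower bound
-/

namespace LVP

/-- The initial configuration. -/
def DPDA.ini {A : Type} (M : DPDA A) : M.Q × List M.G := (M.q0, [M.Z0])

/-- `c` is robust (for blocks of length `n` ending with the sign `x`): at least half of the blocks
`w x` with `|w| = n` can be read from `c`. -/
def Rob (M : DPDA Ltr) (n : ℕ) (x : Ltr) (c : M.Q × List M.G) : Prop :=
  2 ^ n ≤ 2 * Nat.card {w : Fin n → Bool // M.Reads c (bits (List.ofFn w) ++ [x])}

/-- `u` is empty or ends with a sign, and has only main letters. -/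
def Blocky (u : List Ltr) : Prop := (∀ a ∈ u, a.Main) ∧ ∀ h : u ≠ [], (u.getLast h).IsSgn

/-- After reading `u` (which contains no `minus`), the machine is in state `q` with stack `β ++ α`,
and `(q, β)` is robust. -/
structure Good (M : DPDA Ltr) (n : ℕ) (u : List Ltr) (q : M.Q) (β α : List M.G) : Prop where
  blocky : Blocky u
  noMinus : u.count Ltr.minus = 0
  run : M.Run M.ini u (q, β ++ α)
  rob : Rob M n Ltr.plus (q, β)

/-- From `(p, [g])` one can read words with arbitrary drop of the sum. -/
def Surv (M : DPDA Ltr) (p : M.Q) (g : M.G) : Prop :=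
  ∀ T : ℕ, ∃ y : List Ltr, (∀ a ∈ y, a.Main) ∧ y.count Ltr.minus = y.count Ltr.plus + T ∧
    M.Reads (p, [g]) y

end LVP
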