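import Mathlib

/-!
# Deterministic and Las Vegas pushdown automata: definitions
-/

namespace LVP

open scoped ENNReal

/-! ## Deterministic pushdown automata -/

/-- A deterministic pushdown automaton over the alphabet `A`. The stack is a list of symbols with
the top symbol first. `δ q none g` is the `ε`-move, `δ q (some a) g` the move reading `a`; a move
replaces the top symbol `g` by a list of symbols. Acceptance is by final states. -/
structure DPDA (A : Type) where
  Q : Type
  G : Type
  finQ : Finite Q
  finG : Finite G
  δ : Q → Option A → G → Option (Q × List G)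
  det : ∀ q g a, δ q none g ≠ none → δ q (some a) g = none
  q0 : Q
  Z0 : G
  F : Set Q

namespace DPDA

variable {A : Type} (M : DPDA A)

/-- `M.Run c y c'`: from the configuration `c` the machine can reach `c'` while reading exactly the
word `y`. -/
inductive Run : M.Q × List M.G → List A → M.Q × List M.G → Prop
  | refl (c) : Run c [] c
  | eps {q g q' l s y c} : M.δ q none g = some (q', l) → Run (q', l ++ s) y c →
      Run (q, g :: s) y c
  | read {q g a q' l s y c} : M.δ q (some a) g = some (q', l) → Run (q', l ++ s) y c →
      Run (q, g :: s) (a :: y) c

/-- `M` accepts `w`: it can read all of `w` and be in a final state. -/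
def Accepts (w : List A) : Prop := ∃ c, M.Run (M.q0, [M.Z0]) w c ∧ c.1 ∈ M.F

end DPDA

/-- `L` is a deterministic context-free language. -/
def IsDCF {A : Type} (L : Set (List A)) : Prop := ∃ M : DPDA A, ∀ w, w ∈ L ↔ M.Accepts w

/-! ## Las Vegas pushdown automata -/

/-- The three kinds of states of a Las Vegas pushdown automaton. -/
inductive Kind
  | acc
  | rej
  | neu
  deriving DecidableEq

/-- A Las Vegas pushdown automaton over the alphabet `A`, before the soundness conditions.
`p q g a (q', l)` is the probability of the move which, in state `q` with top symbol `g`, reads `a`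
(reads nothing if `a = none`), enters state `q'` and replaces `g` by the list `l`. In every
situation (state `q`, top symbol `g`) the moves are either all `ε`-moves or all reading moves, and
the probabilities of the `ε`-moves, respectively of the moves reading a given letter, add up to
`1` if there is such a move. -/
structure LVPDA (A : Type) where
  Q : Type
  G : Type
  finQ : Finite Q
  finG : Finite G
  p : Q → G → Option A → Q × List G → ℝ≥0∞
  finite_moves : {x : Q × G × Option A × (Q × List G) | p x.1 x.2.1 x.2.2.1 x.2.2.2 ≠ 0}.Finite
  unmixed : ∀ q g, (∀ m, p q g none m = 0) ∨ (∀ a m, p q g (some a) m = 0)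
  norm : ∀ q g a, (∀ m, p q g a m = 0) ∨ ∑' m, p q g a m = 1
  q0 : Q
  Z0 : G
  kind : Q → Kind
  acc_closed : ∀ q g q' l, p q g none (q', l) ≠ 0 → kind q = Kind.acc → kind q' = Kind.acc
  rej_closed : ∀ q g q' l, p q g none (q', l) ≠ 0 → kind q = Kind.rej → kind q' = Kind.rej

namespace LVPDA

variable {A : Type} (M : LVPDA A)

/-- Configurations: state and stack. -/
abbrev Conf := M.Q × List M.G

/-- A computation is given by its list of moves (letter read or `none`, new state, pushed list). -/
abbrev Comp := List (Option A × (M.Q × List M.G))

/-- The probability of a computation from the given configuration: the product of the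
probabilities of its moves. -/
noncomputable def wt : M.Conf → M.Comp → ℝ≥0∞
  | _, [] => 1
  | (_, []), _ :: _ => 0
  | (q, g :: s), m :: r => M.p q g m.1 m.2 * wt (m.2.1, m.2.2 ++ s) r

/-- The last configuration of a computation. -/
def last : M.Conf → M.Comp → M.Conf
  | c, [] => c
  | (_, []), m :: r => last (m.2.1, m.2.2) r
  | (_, _ :: s), m :: r => last (m.2.1, m.2.2 ++ s) r

/-- The word read by a computation. -/
def inp (r : M.Comp) : List A := r.filterMap Prod.fst

/-- The initial configuration. -/
def init : M.Conf := (M.q0, [M.Z0])

/-- The total probability of the computations which read all of `w` and stop at the first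
configuration satisfying `P` that is reached after the last letter of `w` is read. -/
noncomputable def prob (w : List A) (P : M.Conf → Prop) : ℝ≥0∞ :=
  ∑' r : {r : M.Comp // M.inp r = w ∧ P (M.last M.init r) ∧
    ∀ r', r' <+: r → r' ≠ r → M.inp r' = w → ¬ P (M.last M.init r')}, M.wt M.init r.1

/-- From the configuration `c` only neutral states can be reached by `ε`-moves. -/
def Stays (c : M.Conf) : Prop :=
  ∀ r : M.Comp, M.inp r = [] → M.wt c r ≠ 0 → M.kind (M.last c r).1 = Kind.neu

/-- The probability that `M` accepts `w`. -/
noncomputable def accProb (w : List A) : ℝ≥0∞ := M.prob w (fun c => M.kind c.1 = Kind.acc)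

/-- The probability that `M` rejects `w`. -/
noncomputable def rejProb (w : List A) : ℝ≥0∞ := M.prob w (fun c => M.kind c.1 = Kind.rej)

/-- The probability of the answer ? on `w`. -/
noncomputable def quProb (w : List A) : ℝ≥0∞ := M.prob w M.Stays

end LVPDA

/-- `L` belongs to `LVCF_ε`: some Las Vegas pushdown automaton accepts only words of `L`, rejects
only words outside `L`, answers ? with probability at most `ε` on every input, and commits to an
answer with probability at least `1 - ε` on every input. (No input has both an accepting and a
rejecting computation.) -/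
def InLVCF {A : Type} (ε : ℝ≥0∞) (L : Set (List A)) : Prop :=
  ∃ M : LVPDA A, ∀ w, (w ∈ L → M.rejProb w = 0) ∧ (w ∉ L → M.accProb w = 0) ∧
    M.quProb w ≤ ε ∧ 1 - ε ≤ M.accProb w + M.rejProb w

/-- `L` belongs to `LVCF*`. -/
def InLVCFStar {A : Type} (L : Set (List A)) : Prop := ∀ ε : ℝ≥0∞, 0 < ε → ε < 1 → InLVCF ε L

/-! ## The language -/

/-- The alphabet: two bits, two signs, two end markers. -/
inductive Ltr
  | bit (b : Bool)
  | plus
  | minus
  | ask
  | fin
  deriving DecidableEq

namespace Ltr

/-- Bits and signs are the main letters. -/
def Main : Ltr → Prop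
  | bit _ => True
  | plus => True
  | minus => True
  | ask => False
  | fin => False

/-- The signs. -/
def IsSgn : Ltr → Prop
  | bit _ => False
  | plus => True
  | minus => True
  | ask => False
  | fin => False

end Ltr

/-- A word of bits as a word of letters. -/
def bits (w : List Bool) : List Ltr := w.map Ltr.bit

/-- The language: words `u fin` such that `u` has as many `plus` as `minus`, and words
`v w x w' ask w^R` such that `w` and `w'` are words of bits, `x` is a sign and `v` is empty or ends
with a sign. -/
def Lang : Set (List Ltr) :=
  {z | (∃ u : List Ltr, (∀ a ∈ u, a.Main) ∧ u.count Ltr.plus = u.count Ltr.minus ∧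
      z = u ++ [Ltr.fin]) ∨
    ∃ (v : List Ltr) (w w' : List Bool) (x : Ltr), (∀ a ∈ v, a.Main) ∧
      (∀ h : v ≠ [], (v.getLast h).IsSgn) ∧ x.IsSgn ∧
      z = v ++ bits w ++ [x] ++ bits w' ++ [Ltr.ask] ++ bits w.reverse}

end LVP
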