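import Pool.Agent.H82.LVP.LangFacts

/-!
# The extension lemma

Let `W` be the set of the `w` such that `w x` can be read from `(q, β)`; choose for each
`w ∈ W` the configuration `(q_w, β_w)` reached. Assume that no `(q_w, β_w)` is robust for `x'`.
Then for every `w ∈ W` more than half of the `w'` are such that `w' x'` cannot be read from
`(q_w, β_w)`; so there are at least `2^(n-1) * 2^(n-1)` such pairs `(w, w')`. But for fixed `w'`
there are at most `|Q| * (n+1)` such `w`.
-/

namespace LVP

open Classical in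
theorem ext_count {M : DPDA Ltr} (hM : ∀ w, w ∈ Lang ↔ M.Accepts w) {n : ℕ}
    {u : List Ltr} (hu : Blocky u) {q : M.Q}
    {β α : List M.G} (hr : M.Run M.ini u (q, β ++ α)) {x : Ltr} (hx : x.IsSgn)
    {x' : Ltr} (hx' : x'.IsSgn) (f : (Fin n → Bool) → M.Q × List M.G) (w' : Fin n → Bool)
    (S : Finset (Fin n → Bool))
    (hf : ∀ w ∈ S, M.Run (q, β) (bits (List.ofFn w) ++ [x]) (f w))
    (hS : ∀ w ∈ S, ¬ M.Reads (f w) (bits (List.ofFn w') ++ [x'])) :
    S.card ≤ Nat.card M.Q * (n + 1) := by
  have : Finite M.Q := M.finQ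
  have : Nonempty M.Q := ⟨M.q0⟩
  -- the moment of touching
  have key : ∀ w ∈ S, ∃ (y1 y2 : List Ltr) (p : M.Q), bits (List.ofFn w') = y1 ++ y2 ∧
      M.Run M.ini (u ++ bits (List.ofFn w) ++ [x] ++ y1) (p, α) := by
    intro w hw
    have r1 : M.Run M.ini (u ++ (bits (List.ofFn w) ++ [x])) ((f w).1, (f w).2 ++ α) :=
      hr.trans ((hf w hw).lift α)
    have hacc : M.Accepts (u ++ bits (List.ofFn w) ++ [x] ++ bits (List.ofFn w') ++ [Ltr.ask] ++
        bits (List.ofFn w).reverse) := (hM _).1 ((mem_ask hu hx).2 rfl)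
    have hacc2 : ∃ z, M.Accepts ((u ++ (bits (List.ofFn w) ++ [x])) ++
        ((bits (List.ofFn w') ++ [x']) ++ z)) := by
      refine ⟨[Ltr.ask] ++ bits (List.ofFn w').reverse, ?_⟩
      have hb : Blocky (u ++ bits (List.ofFn w) ++ [x]) := by
        constructor
        · intro a ha
          simp only [List.mem_append, List.mem_singleton] at ha
          rcases ha with (ha | ha) | rfl
          · exact hu.1 a ha
          · exact bits_main _ a ha
          · exact isSgn_main hx
        · intro h
          simpa using hx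
      have := (hM _).1 ((mem_ask (w := List.ofFn w') (w' := []) hb hx').2 rfl)
      simpa [bits] using this
    obtain ⟨z, c, hc, -⟩ := hacc2
    have r2 : M.Run ((f w).1, (f w).2 ++ α) ((bits (List.ofFn w') ++ [x']) ++ z) c :=
      r1.conf hc (by simp)
    obtain ⟨c3, r3, -⟩ := r2.split
    obtain ⟨y1, y2, p, e, hy2, r4, -⟩ := DPDA.touch_of_not_reads ⟨c3, r3⟩ (hS w hw)
    obtain ⟨y3, a, rfl⟩ : ∃ y3 a, y2 = y3 ++ [a] :=
      ⟨y2.dropLast, y2.getLast hy2, (List.dropLast_append_getLast hy2).symm⟩
    rw [← List.append_assoc] at e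
    have e2 := List.append_inj' e rfl
    refine ⟨y1, y3, p, e2.1, ?_⟩
    have := r1.trans (r4.lift' α)
    simpa using this
  choose! y1 y2 p h1 h2 using key
  have hlen : ∀ w ∈ S, (y1 w).length < n + 1 := by
    intro w hw
    have := congrArg List.length (h1 w hw)
    simp [bits] at this
    omega
  let F : (Fin n → Bool) → M.Q × Fin (n + 1) := fun w => (p w, Fin.ofNat (n + 1) (y1 w).length)
  have hinj : Set.InjOn F S := by
    intro a ha b hb hab
    simp only [Finset.mem_coe] at ha hb
    have e1 : p a = p b := congrArg Prod.fst hab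
    have e2 : (y1 a).length = (y1 b).length := by
      have := congrArg (fun t => (Prod.snd t).val) hab
      simp only [F, Fin.ofNat, Nat.mod_eq_of_lt (hlen a ha), Nat.mod_eq_of_lt (hlen b hb)] at this
      exact this
    have e3 : y1 a = y1 b := by
      have := (h1 a ha).symm.trans (h1 b hb)
      exact (List.append_inj this e2).1
    have e4 : y2 a = y2 b := by
      have := (h1 a ha).symm.trans (h1 b hb)
      exact (List.append_inj this e2).2
    -- the accepting run for `a`
    have hacc : M.Accepts (u ++ bits (List.ofFn a) ++ [x] ++ bits (List.ofFn w') ++ [Ltr.ask] ++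
        bits (List.ofFn a).reverse) := (hM _).1 ((mem_ask hu hx).2 rfl)
    obtain ⟨c, hc, hcF⟩ := hacc
    have hc' : M.Run M.ini ((u ++ bits (List.ofFn a) ++ [x] ++ y1 a) ++
        (y2 a ++ [Ltr.ask] ++ bits (List.ofFn a).reverse)) c := by
      rw [h1 a ha] at hc
      simpa [DPDA.ini] using hc
    have r := (h2 a ha).conf hc' (by simp)
    have r' := (h2 b hb).trans (e1 ▸ r)
    have hb' : M.Accepts (u ++ bits (List.ofFn b) ++ [x] ++ bits (List.ofFn w') ++ [Ltr.ask] ++
        bits (List.ofFn a).reverse) := by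
      refine ⟨c, ?_, hcF⟩
      rw [h1 b hb, ← e4]
      simpa [DPDA.ini] using r'
    have := (mem_ask hu hx).1 ((hM _).2 hb')
    have := bits_inj this
    exact List.ofFn_injective (List.reverse_injective this)
  have hcard : S.card ≤ Nat.card (M.Q × Fin (n + 1)) := by
    have : Fintype M.Q := Fintype.ofFinite _
    rw [Nat.card_eq_fintype_card, ← Finset.card_univ]
    exact Finset.card_le_card_of_injOn F (fun _ _ => Finset.mem_coe.2 (Finset.mem_univ _)) hinj
  simpa [Nat.card_prod] using hcard

open Classical in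
theorem ext {M : DPDA Ltr} (hM : ∀ w, w ∈ Lang ↔ M.Accepts w) {n : ℕ}
    (hn : 4 * Nat.card M.Q * (n + 1) < 2 ^ n) {u : List Ltr} (hu : Blocky u) {q : M.Q}
    {β α : List M.G} (hr : M.Run M.ini u (q, β ++ α)) {x : Ltr} (hx : x.IsSgn)
    (hR : Rob M n x (q, β)) {x' : Ltr} (hx' : x'.IsSgn) :
    ∃ (w : Fin n → Bool) (q' : M.Q) (β' : List M.G),
      M.Run (q, β) (bits (List.ofFn w) ++ [x]) (q', β') ∧ Rob M n x' (q', β') := by
  have : Nonempty M.Q := ⟨M.q0⟩
  by_contra hcon
  push Not at hcon
  let W : Finset (Fin n → Bool) :=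
    Finset.univ.filter (fun w => M.Reads (q, β) (bits (List.ofFn w) ++ [x]))
  have hW : 2 ^ n ≤ 2 * W.card := by
    have := hR
    unfold Rob at this
    rwa [Nat.card_eq_fintype_card, Fintype.card_subtype] at this
  have hf : ∀ w ∈ W, ∃ c, M.Run (q, β) (bits (List.ofFn w) ++ [x]) c := by
    intro w hw
    exact (Finset.mem_filter.1 hw).2
  choose! f hf using hf
  have hbad : ∀ w ∈ W, 2 ^ n ≤ 2 * (Finset.univ.filter
      (fun w' : Fin n → Bool => ¬ M.Reads (f w) (bits (List.ofFn w') ++ [x']))).card := by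
    intro w hw
    have h1 := hcon w (f w).1 (f w).2 (hf w hw)
    unfold Rob at h1
    rw [Nat.card_eq_fintype_card, Fintype.card_subtype] at h1
    have h2 := Finset.card_filter_add_card_filter_not (s := (Finset.univ : Finset (Fin n → Bool)))
      (fun w' : Fin n → Bool => M.Reads (f w) (bits (List.ofFn w') ++ [x']))
    simp only [Finset.card_univ, Fintype.card_fun, Fintype.card_bool, Fintype.card_fin] at h2
    simp only [Prod.mk.eta] at h1
    omega
  have hdc := Finset.sum_card_bipartiteAbove_eq_sum_card_bipartiteBelow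
    (s := W) (t := (Finset.univ : Finset (Fin n → Bool)))
    (fun (w w' : Fin n → Bool) => ¬ M.Reads (f w) (bits (List.ofFn w') ++ [x']))
  have hlow : W.card * 2 ^ n ≤ 2 * ∑ w ∈ W, (Finset.bipartiteAbove
      (fun (w w' : Fin n → Bool) => ¬ M.Reads (f w) (bits (List.ofFn w') ++ [x'])) Finset.univ w).card := by
    rw [Finset.mul_sum]
    calc W.card * 2 ^ n = ∑ w ∈ W, 2 ^ n := by simp
      _ ≤ _ := Finset.sum_le_sum (fun w hw => by
          simpa [Finset.bipartiteAbove] using hbad w hw)
  have hup : ∑ w' : Fin n → Bool, (Finset.bipartiteBelow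
      (fun (w w' : Fin n → Bool) => ¬ M.Reads (f w) (bits (List.ofFn w') ++ [x'])) W w').card ≤
      2 ^ n * (Nat.card M.Q * (n + 1)) := by
    calc _ ≤ ∑ w' : Fin n → Bool, Nat.card M.Q * (n + 1) := by
          refine Finset.sum_le_sum (fun w' _ => ?_)
          refine ext_count hM hu hr hx hx' f w' _ ?_ ?_
          · intro w hw
            exact hf w (Finset.mem_filter.1 hw).1
          · intro w hw
            exact (Finset.mem_filter.1 hw).2
      _ = _ := by simp
  rw [hdc] at hlow
  have h3 : W.card * 2 ^ n ≤ 2 * (2 ^ n * (Nat.card M.Q * (n + 1))) :=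
    hlow.trans (Nat.mul_le_mul_left 2 hup)
  have hpos : 0 < 2 ^ n := by positivity
  have h4 : W.card ≤ 2 * (Nat.card M.Q * (n + 1)) := by
    have : W.card * 2 ^ n ≤ (2 * (Nat.card M.Q * (n + 1))) * 2 ^ n := by
      calc _ ≤ _ := h3
        _ = _ := by ring
    exact Nat.le_of_mul_le_mul_right this hpos
  have h5 : 4 * Nat.card M.Q * (n + 1) = 2 * (2 * (Nat.card M.Q * (n + 1))) := by ring
  omega

end LVP
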