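import Pool.Agent.H82.LVP.Mach

/-!
# Flushing and zero tests

Both proofs: first induction on `G` (popping the block symbols), then induction on `b.1.natAbs`
(for the flush; note that `b ± 1` stays in the interval, so `badd` is exact, `Set.projIcc_of_mem`).
`cst v` starts with `cnt true` if `v > 0`, with `cnt false` if `v < 0` and is `[bot]` if `v = 0`.
-/

namespace LVP

private theorem flush_cst_zero : cst 0 = [SG.bot] := by simp [cst]

private theorem flush_cst_succ (v : ℤ) (hv : 0 ≤ v) : cst (v + 1) = .cnt true :: cst v := by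
  obtain ⟨k, rfl⟩ := Int.eq_ofNat_of_zero_le hv
  unfold cst
  have h1 : ((k : ℤ) + 1).natAbs = k + 1 := by omega
  have h2 : decide (0 < (k : ℤ) + 1) = true := decide_eq_true (by omega)
  have h3 : ((k : ℤ)).natAbs = k := by omega
  rw [h1, h2, h3, List.replicate_succ, List.cons_append]
  rcases Nat.eq_zero_or_pos k with h | h
  · subst h
    rfl
  · have h4 : decide (0 < (k : ℤ)) = true := decide_eq_true (by omega)
    rw [h4]

private theorem flush_cst_pred (v : ℤ) (hv : v ≤ 0) : cst (v - 1) = .cnt false :: cst v := by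
  obtain ⟨k, hk⟩ := Int.eq_ofNat_of_zero_le (show 0 ≤ -v by omega)
  obtain rfl : v = -(k : ℤ) := by omega
  unfold cst
  have h1 : (-(k : ℤ) - 1).natAbs = k + 1 := by omega
  have h2 : decide (0 < -(k : ℤ) - 1) = false := decide_eq_false (by omega)
  have h3 : (-(k : ℤ)).natAbs = k := by omega
  have h4 : decide (0 < -(k : ℤ)) = false := decide_eq_false (by omega)
  rw [h1, h2, h3, h4, List.replicate_succ, List.cons_append]

private theorem flush_badd {K : ℕ} (b : Buf K) (x : ℤ) (h : -(K : ℤ) ≤ b.1 + x)
    (h' : b.1 + x ≤ K) : (badd b x).1 = b.1 + x := by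
  unfold badd
  rw [Set.projIcc_of_mem (by omega) ⟨h, h'⟩]

private theorem flush_eps {K : ℕ} [NeZero K] {q : SQ K} {g : SG} (m : SQ K × List SG)
    {s : List SG} {c : SQ K × List SG} (h : mact K q g = Sum.inl m)
    (h1 : (mach K).Run (m.1, m.2 ++ s) [] c) : (mach K).Run (q, g :: s) [] c :=
  DetM.Run.eps (D := mach K) h h1

private theorem flush_core (K : ℕ) [NeZero K] : ∀ (n : ℕ) (v : ℤ) (b : Buf K), b.1.natAbs = n →
    (mach K).Run (.flush b, cst v) [] (.main 0 (bzero K) true, cst (v + b.1)) := by
  intro n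
  induction n with
  | zero =>
    intro v b hb
    have hb0 : b.1 = 0 := by omega
    rw [hb0, add_zero]
    rcases lt_trichotomy v 0 with hv | hv | hv
    · obtain ⟨u, rfl⟩ : ∃ u, v = u - 1 := ⟨v + 1, by omega⟩
      rw [flush_cst_pred u (by omega)]
      exact flush_eps (.main 0 (bzero K) true, [.cnt false])
        (by simp [mact, hb0]) (DetM.Run.refl _)
    · subst hv
      rw [flush_cst_zero]
      exact flush_eps (.main 0 (bzero K) true, [.bot])
        (by simp [mact, hb0]) (DetM.Run.refl _)
    · obtain ⟨u, rfl⟩ : ∃ u, v = u + 1 := ⟨v - 1, by omega⟩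
      rw [flush_cst_succ u (by omega)]
      exact flush_eps (.main 0 (bzero K) true, [.cnt true])
        (by simp [mact, hb0]) (DetM.Run.refl _)
  | succ n ih =>
    intro v b hb
    have hb0 : b.1 ≠ 0 := by omega
    have hlo : -(K : ℤ) ≤ b.1 := b.2.1
    have hhi : b.1 ≤ (K : ℤ) := b.2.2
    by_cases hpos : 0 < b.1
    · have hbb : (badd b (-1)).1 = b.1 + -1 := flush_badd b (-1) (by omega) (by omega)
      have h1 := ih (v + 1) (badd b (-1)) (by rw [hbb]; omega)
      rw [hbb, show v + 1 + (b.1 + -1) = v + b.1 by ring] at h1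
      rcases lt_trichotomy v 0 with hv | hv | hv
      · obtain ⟨u, rfl⟩ : ∃ u, v = u - 1 := ⟨v + 1, by omega⟩
        rw [show u - 1 + 1 = u by ring] at h1
        rw [flush_cst_pred u (by omega)]
        exact flush_eps (.flush (badd b (-1)), [])
          (by simp [mact, hb0, hpos]) h1
      · subst hv
        rw [flush_cst_succ 0 le_rfl, flush_cst_zero] at h1
        rw [flush_cst_zero]
        exact flush_eps (.flush (badd b (-1)), [.cnt true, .bot])
          (by simp [mact, hb0, hpos]) h1
      · obtain ⟨u, rfl⟩ : ∃ u, v = u + 1 := ⟨v - 1, by omega⟩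
        rw [flush_cst_succ (u + 1) (by omega), flush_cst_succ u (by omega)] at h1
        rw [flush_cst_succ u (by omega)]
        exact flush_eps (.flush (badd b (-1)), [.cnt true, .cnt true])
          (by simp [mact, hb0, hpos]) h1
    · have hbb : (badd b 1).1 = b.1 + 1 := flush_badd b 1 (by omega) (by omega)
      have h1 := ih (v - 1) (badd b 1) (by rw [hbb]; omega)
      rw [hbb, show v - 1 + (b.1 + 1) = v + b.1 by ring] at h1
      rcases lt_trichotomy v 0 with hv | hv | hv
      · obtain ⟨u, rfl⟩ : ∃ u, v = u - 1 := ⟨v + 1, by omega⟩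
        rw [flush_cst_pred (u - 1) (by omega), flush_cst_pred u (by omega)] at h1
        rw [flush_cst_pred u (by omega)]
        exact flush_eps (.flush (badd b 1), [.cnt false, .cnt false])
          (by simp [mact, hb0, hpos]) h1
      · subst hv
        rw [flush_cst_pred 0 le_rfl, flush_cst_zero] at h1
        rw [flush_cst_zero]
        exact flush_eps (.flush (badd b 1), [.cnt false, .bot])
          (by simp [mact, hb0, hpos]) h1
      · obtain ⟨u, rfl⟩ : ∃ u, v = u + 1 := ⟨v - 1, by omega⟩
        rw [show u + 1 - 1 = u by ring] at h1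
        rw [flush_cst_succ u (by omega)]
        exact flush_eps (.flush (badd b 1), [])
          (by simp [mact, hb0, hpos]) h1

theorem run_flush (K : ℕ) [NeZero K] (G : List SG) (hG : ∀ g ∈ G, g.Blk) (v : ℤ) (b : Buf K) :
    (mach K).Run (.flush b, G ++ cst v) [] (.main 0 (bzero K) true, cst (v + b.1)) := by
  induction G with
  | nil => exact flush_core K _ v b rfl
  | cons g G ih =>
    have h1 := ih fun g' hg' => hG g' (List.mem_cons_of_mem _ hg')
    have h2 := hG g List.mem_cons_self
    refine flush_eps (.flush b, []) ?_ h1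
    cases g with
    | bot => exact absurd h2 (by simp [SG.Blk])
    | cnt x => exact absurd h2 (by simp [SG.Blk])
    | bit x => rfl
    | sep => rfl

private theorem flush_zer_core (K : ℕ) [NeZero K] : ∀ (n : ℕ) (v : ℤ) (b : Buf K),
    b.1.natAbs = n → ∃ g s, (mach K).Run (.zer b, cst v) []
      ((if v + b.1 = 0 then SQ.okk else SQ.dead), g :: s) := by
  intro n
  induction n with
  | zero =>
    intro v b hb
    have hb0 : b.1 = 0 := by omega
    rw [hb0, add_zero]
    rcases lt_trichotomy v 0 with hv | hv | hv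
    · obtain ⟨u, rfl⟩ : ∃ u, v = u - 1 := ⟨v + 1, by omega⟩
      rw [flush_cst_pred u (by omega), if_neg (by omega)]
      exact ⟨_, _, flush_eps (.dead, [.cnt false])
        (by simp [mact, hb0]) (DetM.Run.refl _)⟩
    · subst hv
      rw [flush_cst_zero, if_pos rfl]
      exact ⟨_, _, flush_eps (.okk, [.bot])
        (by simp [mact, hb0]) (DetM.Run.refl _)⟩
    · obtain ⟨u, rfl⟩ : ∃ u, v = u + 1 := ⟨v - 1, by omega⟩
      rw [flush_cst_succ u (by omega), if_neg (by omega)]
      exact ⟨_, _, flush_eps (.dead, [.cnt true])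
        (by simp [mact, hb0]) (DetM.Run.refl _)⟩
  | succ n ih =>
    intro v b hb
    have hb0 : b.1 ≠ 0 := by omega
    have hlo : -(K : ℤ) ≤ b.1 := b.2.1
    have hhi : b.1 ≤ (K : ℤ) := b.2.2
    rcases lt_trichotomy v 0 with hv | hv | hv
    · obtain ⟨u, rfl⟩ : ∃ u, v = u - 1 := ⟨v + 1, by omega⟩
      rw [flush_cst_pred u (by omega)]
      by_cases hpos : 0 < b.1
      · have hbb : (badd b (-1)).1 = b.1 + -1 := flush_badd b (-1) (by omega) (by omega)
        obtain ⟨g, s, h1⟩ := ih u (badd b (-1)) (by rw [hbb]; omega)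
        rw [hbb, show u + (b.1 + -1) = u - 1 + b.1 by ring] at h1
        exact ⟨g, s, flush_eps (.zer (badd b (-1)), [])
          (by simp [mact, hpos]) h1⟩
      · rw [if_neg (by omega)]
        exact ⟨_, _, flush_eps (.dead, [.cnt false])
          (by simp [mact, hpos]) (DetM.Run.refl _)⟩
    · subst hv
      rw [flush_cst_zero, if_neg (by omega)]
      exact ⟨_, _, flush_eps (.dead, [.bot])
        (by simp [mact, hb0]) (DetM.Run.refl _)⟩
    · obtain ⟨u, rfl⟩ : ∃ u, v = u + 1 := ⟨v - 1, by omega⟩
      rw [flush_cst_succ u (by omega)]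
      by_cases hneg : b.1 < 0
      · have hbb : (badd b 1).1 = b.1 + 1 := flush_badd b 1 (by omega) (by omega)
        obtain ⟨g, s, h1⟩ := ih u (badd b 1) (by rw [hbb]; omega)
        rw [hbb, show u + (b.1 + 1) = u + 1 + b.1 by ring] at h1
        exact ⟨g, s, flush_eps (.zer (badd b 1), [])
          (by simp [mact, hneg]) h1⟩
      · rw [if_neg (by omega)]
        exact ⟨_, _, flush_eps (.dead, [.cnt true])
          (by simp [mact, hneg]) (DetM.Run.refl _)⟩

theorem run_zer (K : ℕ) [NeZero K] (G : List SG) (hG : ∀ g ∈ G, g.Blk) (v : ℤ) (b : Buf K) :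
    ∃ g s, (mach K).Run (.zer b, G ++ cst v) []
      ((if v + b.1 = 0 then SQ.okk else SQ.dead), g :: s) := by
  induction G with
  | nil => exact flush_zer_core K _ v b rfl
  | cons g G ih =>
    obtain ⟨g1, s1, h1⟩ := ih fun g' hg' => hG g' (List.mem_cons_of_mem _ hg')
    have h2 := hG g List.mem_cons_self
    refine ⟨g1, s1, flush_eps (.zer b, []) ?_ h1⟩
    cases g with
    | bot => exact absurd h2 (by simp [SG.Blk])
    | cnt x => exact absurd h2 (by simp [SG.Blk])
    | bit x => rfl
    | sep => rfl

end LVP
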