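import Pool.Agent.H82.LVP.Defs

/-!
# From a family of deterministic machines with verdicts to a Las Vegas machine
-/

namespace LVP

open scoped ENNReal

/-- A total deterministic machine with verdicts: in each situation (state, top symbol) it either
makes an `ε`-move (`inl`) or reads a letter (`inr`). -/
structure DetM (A : Type) where
  Q : Type
  G : Type
  finQ : Finite Q
  finG : Finite G
  act : Q → G → (Q × List G) ⊕ (A → Q × List G)
  kind : Q → Kind
  acc_closed : ∀ q g m, act q g = Sum.inl m → kind q = Kind.acc → kind m.1 = Kind.acc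
  rej_closed : ∀ q g m, act q g = Sum.inl m → kind q = Kind.rej → kind m.1 = Kind.rej

namespace DetM

variable {A : Type} (D : DetM A)

/-- `D.Run c y c'`: from `c` the machine reaches `c'` while reading exactly `y`. -/
inductive Run : D.Q × List D.G → List A → D.Q × List D.G → Prop
  | refl (c) : Run c [] c
  | eps {q g m s y c} : D.act q g = Sum.inl m → Run (m.1, m.2 ++ s) y c → Run (q, g :: s) y c
  | read {q g a f s y c} : D.act q g = Sum.inr f → Run ((f a).1, (f a).2 ++ s) y c →
      Run (q, g :: s) (a :: y) c

/-- From `c` the machine reads `w` and gives the verdict `k`: it reaches an accepting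
(rejecting) state, or a configuration from which only neutral states are reached by
`ε`-moves. -/
def Out (c : D.Q × List D.G) (w : List A) (k : Kind) : Prop :=
  ∃ c', D.Run c w c' ∧ (k = Kind.neu → ∀ c'', D.Run c' [] c'' → D.kind c''.1 = Kind.neu) ∧
    (k ≠ Kind.neu → D.kind c'.1 = k)

variable {D}

theorem Run.trans {c c' c'' : D.Q × List D.G} {y z : List A} (h : D.Run c y c')
    (h' : D.Run c' z c'') : D.Run c (y ++ z) c'' := by
  induction h with
  | refl c => simpa using h'
  | eps hδ _ ih => exact Run.eps hδ (ih h')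
  | read hδ _ ih => exact Run.read hδ (ih h')

/-- Determinism. -/
theorem Run.comparable {c c1 c2 : D.Q × List D.G} {w : List A} (h1 : D.Run c w c1)
    (h2 : D.Run c w c2) : D.Run c1 [] c2 ∨ D.Run c2 [] c1 := by
  induction h1 with
  | refl c => exact Or.inl h2
  | @eps q g m s y c hδ h ih =>
    cases h2 with
    | refl => exact Or.inr (Run.eps hδ h)
    | eps hδ' h' =>
      rw [hδ] at hδ'
      cases hδ'
      exact ih h'
    | read hδ' h' =>
      rw [hδ] at hδ'
      cases hδ'
  | @read q g a f s y c hδ h ih =>
    cases h2 with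
    | eps hδ' h' =>
      rw [hδ] at hδ'
      cases hδ'
    | read hδ' h' =>
      rw [hδ] at hδ'
      cases hδ'
      exact ih h'

theorem Run.kind_acc {c c' : D.Q × List D.G} {y : List A} (h : D.Run c y c') (hy : y = [])
    (hk : D.kind c.1 = Kind.acc) : D.kind c'.1 = Kind.acc := by
  induction h with
  | refl c => exact hk
  | eps hδ _ ih =>
    have h1 := D.acc_closed _ _ _ hδ hk
    exact ih hy h1
  | read hδ _ ih => cases hy

theorem Run.kind_rej {c c' : D.Q × List D.G} {y : List A} (h : D.Run c y c') (hy : y = [])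
    (hk : D.kind c.1 = Kind.rej) : D.kind c'.1 = Kind.rej := by
  induction h with
  | refl c => exact hk
  | eps hδ _ ih =>
    have h1 := D.rej_closed _ _ _ hδ hk
    exact ih hy h1
  | read hδ _ ih => cases hy

/-- A committed state reached by reading `w` is the verdict. -/
theorem Out.eq_of_kind {c c' : D.Q × List D.G} {w : List A} {k k' : Kind} (h : D.Out c w k)
    (hr : D.Run c w c') (hk : D.kind c'.1 = k') (hk' : k' ≠ Kind.neu) : k = k' := by
  obtain ⟨c1, h1, h2, h3⟩ := h
  have hcl : ∀ {a b : D.Q × List D.G}, D.Run a [] b → ∀ k'', k'' ≠ Kind.neu → D.kind a.1 = k'' →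
      D.kind b.1 = k'' := by
    intro a b hab k'' hk0 hka
    cases k'' with
    | acc => exact hab.kind_acc rfl hka
    | rej => exact hab.kind_rej rfl hka
    | neu => exact absurd rfl hk0
  by_cases hn : k = Kind.neu
  · exfalso
    rcases h1.comparable hr with hc | hc
    · have := h2 hn _ hc
      rw [hk] at this
      exact hk' this
    · have e1 := hcl hc k' hk' hk
      have e2 := h2 hn _ (Run.refl c1)
      rw [e1] at e2
      exact hk' e2
  · have h4 := h3 hn
    rcases h1.comparable hr with hc | hc
    · have e1 := hcl hc k hn h4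
      rw [← hk, e1]
    · have e1 := hcl hc k' hk' hk
      rw [← h4, e1]

/-- If only neutral states can be reached, the verdict is neutral. -/
theorem Out.eq_neu {c c' : D.Q × List D.G} {w : List A} {k : Kind} (h : D.Out c w k)
    (hr : D.Run c w c') (hs : ∀ c'', D.Run c' [] c'' → D.kind c''.1 = Kind.neu) :
    k = Kind.neu := by
  by_contra hn
  obtain ⟨c1, h1, -, h3⟩ := h
  have h4 := h3 hn
  rcases h1.comparable hr with hc | hc
  · have e2 := hs c' (Run.refl c')
    cases k with
    | acc =>
      have := hc.kind_acc rfl h4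
      rw [e2] at this
      cases this
    | rej =>
      have := hc.kind_rej rfl h4
      rw [e2] at this
      cases this
    | neu => exact hn rfl
  · have e1 := hs _ hc
    rw [h4] at e1
    exact hn e1

variable (D)

/-- The move made in the situation `(q, g)` with the letter `x` (or no letter). -/
def tgt (q : D.Q) (g : D.G) : Option A → Option (Option D.Q × List D.G)
  | none => match D.act q g with
    | Sum.inl m => some (some m.1, m.2)
    | Sum.inr _ => none
  | some a => match D.act q g with
    | Sum.inl _ => none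
    | Sum.inr f => some (some (f a).1, (f a).2)

open Classical in
/-- The probabilities of the moves of the Las Vegas machine. -/
noncomputable def lvP (K : ℕ) (st : Fin K → D.Q) :
    Option D.Q → D.G → Option A → Option D.Q × List D.G → ℝ≥0∞
  | none, g, none, m => if m ∈ Set.range (fun i => (some (st i), [g])) then (K : ℝ≥0∞)⁻¹ else 0
  | none, _, some _, _ => 0
  | some q, g, x, m => if D.tgt q g x = some m then 1 else 0

variable {D}

open Classical in
theorem lvP_nn {K : ℕ} {st : Fin K → D.Q} {g : D.G} {m : Option D.Q × List D.G} :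
    D.lvP K st none g none m =
      if m ∈ Set.range (fun i => (some (st i), [g])) then (K : ℝ≥0∞)⁻¹ else 0 := rfl

open Classical in
theorem lvP_s {K : ℕ} {st : Fin K → D.Q} {q : D.Q} {g : D.G} {x : Option A}
    {m : Option D.Q × List D.G} :
    D.lvP K st (some q) g x m = if D.tgt q g x = some m then 1 else 0 := rfl

theorem lvP_none_ne {K : ℕ} {st : Fin K → D.Q} {g : D.G} {x : Option A}
    {m : Option D.Q × List D.G} (h : D.lvP K st none g x m ≠ 0) :
    x = none ∧ ∃ i, m = (some (st i), [g]) := by
  cases x with
  | none =>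
    refine ⟨rfl, ?_⟩
    by_contra hc
    apply h
    rw [lvP_nn, if_neg]
    rintro ⟨i, hi⟩
    exact hc ⟨i, hi.symm⟩
  | some a => exact absurd rfl h

theorem lvP_none_eq {K : ℕ} {st : Fin K → D.Q} {g : D.G} (i : Fin K) :
    D.lvP K st none g none (some (st i), [g]) = (K : ℝ≥0∞)⁻¹ := by
  rw [lvP_nn, if_pos ⟨i, rfl⟩]

theorem lvP_some_ne {K : ℕ} {st : Fin K → D.Q} {q : D.Q} {g : D.G} {x : Option A}
    {m : Option D.Q × List D.G} (h : D.lvP K st (some q) g x m ≠ 0) :
    D.tgt q g x = some m ∧ D.lvP K st (some q) g x m = 1 := by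
  have h1 : D.tgt q g x = some m := by
    by_contra hc
    apply h
    rw [lvP_s, if_neg hc]
  refine ⟨h1, ?_⟩
  rw [lvP_s, if_pos h1]

theorem lvP_some_eq {K : ℕ} {st : Fin K → D.Q} {q : D.Q} {g : D.G} {x : Option A}
    {m : Option D.Q × List D.G} (h : D.tgt q g x = some m) : D.lvP K st (some q) g x m = 1 := by
  rw [lvP_s, if_pos h]

theorem tgt_none {q : D.Q} {g : D.G} {m : Option D.Q × List D.G} (h : D.tgt q g none = some m) :
    ∃ n, D.act q g = Sum.inl n ∧ m = (some n.1, n.2) := by
  unfold tgt at h
  cases ha : D.act q g with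
  | inl n =>
    simp only [ha, Option.some.injEq] at h
    exact ⟨n, rfl, h.symm⟩
  | inr f => simp [ha] at h

theorem tgt_some {q : D.Q} {g : D.G} {a : A} {m : Option D.Q × List D.G}
    (h : D.tgt q g (some a) = some m) :
    ∃ f, D.act q g = Sum.inr f ∧ m = (some (f a).1, (f a).2) := by
  unfold tgt at h
  cases ha : D.act q g with
  | inl n => simp [ha] at h
  | inr f =>
    simp only [ha, Option.some.injEq] at h
    exact ⟨f, rfl, h.symm⟩

variable (D)

/-- The Las Vegas machine. -/
noncomputable abbrev lv [Finite A] (K : ℕ) (hK : 0 < K) (st : Fin K → D.Q)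
    (hst : Function.Injective st) (Z0 : D.G) : LVPDA A where
  Q := Option D.Q
  G := D.G
  finQ := by
    have := D.finQ
    infer_instance
  finG := D.finG
  p := D.lvP K st
  finite_moves := by
    have hQ := D.finQ
    have hG := D.finG
    have h1 : (Set.range (fun x : D.G × Fin K =>
        ((none : Option D.Q), x.1, (none : Option A), ((some (st x.2) : Option D.Q), [x.1])))).Finite :=
      Set.finite_range _
    have h2 : (Set.range (fun x : D.Q × D.G × Option A =>
        ((some x.1 : Option D.Q), x.2.1, x.2.2,
          (D.tgt x.1 x.2.1 x.2.2).getD (none, [])))).Finite :=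
      Set.finite_range _
    refine (h1.union h2).subset ?_
    rintro ⟨q, g, x, m⟩ hx
    simp only [Set.mem_ofPred_eq] at hx
    cases q with
    | none =>
      left
      obtain ⟨h3, i, h4⟩ := lvP_none_ne hx
      refine ⟨(g, i), ?_⟩
      simp only [h3, h4]
    | some q =>
      right
      obtain ⟨h3, -⟩ := lvP_some_ne hx
      refine ⟨(q, g, x), ?_⟩
      simp only [h3, Option.getD_some]
  unmixed := by
    intro q g
    cases q with
    | none =>
      right
      intro a m
      rfl
    | some q =>
      cases ha : D.act q g with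
      | inl n =>
        right
        intro a m
        by_contra hc
        obtain ⟨f, hf, -⟩ := tgt_some (lvP_some_ne hc).1
        rw [ha] at hf
        cases hf
      | inr f =>
        left
        intro m
        by_contra hc
        obtain ⟨n, hn, -⟩ := tgt_none (lvP_some_ne hc).1
        rw [ha] at hn
        cases hn
  norm := by
    intro q g x
    cases q with
    | none =>
      cases x with
      | some a =>
        left
        intro m
        rfl
      | none =>
        right
        have hinj : Function.Injective (fun i : Fin K => ((some (st i) : Option D.Q), [g])) := by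
          intro i j hij
          simp only [Prod.mk.injEq, Option.some.injEq, and_true] at hij
          exact hst hij
        have h1 : ∀ m, D.lvP K st none g none m =
            (Set.range (fun i : Fin K => ((some (st i) : Option D.Q), [g]))).indicator
              (fun _ => (K : ℝ≥0∞)⁻¹) m := by
          intro m
          rw [lvP_nn]
          by_cases hm : m ∈ Set.range (fun i : Fin K => ((some (st i) : Option D.Q), [g]))
          · rw [if_pos hm, Set.indicator_of_mem hm]
          · rw [if_neg hm, Set.indicator_of_notMem hm]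
        rw [tsum_congr h1, ← tsum_subtype, tsum_range (fun _ => (K : ℝ≥0∞)⁻¹) hinj,
          tsum_fintype, Finset.sum_const, Finset.card_univ, Fintype.card_fin, nsmul_eq_mul]
        exact ENNReal.mul_inv_cancel (by exact_mod_cast hK.ne') (ENNReal.natCast_ne_top K)
    | some q =>
      cases ht : D.tgt q g x with
      | none =>
        left
        intro m
        by_contra hc
        have := (lvP_some_ne hc).1
        rw [ht] at this
        cases this
      | some m0 =>
        right
        rw [tsum_eq_single m0]
        · exact lvP_some_eq ht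
        · intro m hm
          by_contra hc
          have := (lvP_some_ne hc).1
          rw [ht] at this
          exact hm (Option.some.inj this).symm
  q0 := none
  Z0 := Z0
  kind := fun q => match q with
    | none => Kind.neu
    | some q => D.kind q
  acc_closed := by
    intro q g q' l hp hk
    cases q with
    | none => cases hk
    | some q =>
      obtain ⟨n, hn, h2⟩ := tgt_none (lvP_some_ne hp).1
      simp only [Prod.mk.injEq] at h2
      rw [h2.1]
      exact D.acc_closed _ _ _ hn hk
  rej_closed := by
    intro q g q' l hp hk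
    cases q with
    | none => cases hk
    | some q =>
      obtain ⟨n, hn, h2⟩ := tgt_none (lvP_some_ne hp).1
      simp only [Prod.mk.injEq] at h2
      rw [h2.1]
      exact D.rej_closed _ _ _ hn hk

section machine

variable {D} [Finite A] {K : ℕ} {hK : 0 < K} {st : Fin K → D.Q} {hst : Function.Injective st}
  {Z0 : D.G}

theorem lv_inp_cons (m : Option A × (Option D.Q × List D.G)) (r : (D.lv K hK st hst Z0).Comp) :
    (D.lv K hK st hst Z0).inp (m :: r) = match m.1 with
      | none => (D.lv K hK st hst Z0).inp r
      | some a => a :: (D.lv K hK st hst Z0).inp r := by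
  obtain ⟨x, m⟩ := m
  cases x <;> rfl

/-- Computations from a proper state are deterministic runs. -/
theorem lv_wt (r : (D.lv K hK st hst Z0).Comp) : ∀ (q : D.Q) (s : List D.G),
    (D.lv K hK st hst Z0).wt (some q, s) r ≠ 0 →
    (D.lv K hK st hst Z0).wt (some q, s) r = 1 ∧ ∃ c' : D.Q × List D.G,
      (D.lv K hK st hst Z0).last (some q, s) r = (some c'.1, c'.2) ∧
      D.Run (q, s) ((D.lv K hK st hst Z0).inp r) c' := by
  induction r with
  | nil =>
    intro q s _
    exact ⟨rfl, (q, s), rfl, Run.refl _⟩
  | cons m r ih =>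
    intro q s h
    cases s with
    | nil => exact absurd rfl h
    | cons g s =>
      obtain ⟨x, q', l⟩ := m
      have h0 : (D.lv K hK st hst Z0).wt (some q, g :: s) ((x, q', l) :: r) =
          D.lvP K st (some q) g x (q', l) * (D.lv K hK st hst Z0).wt (q', l ++ s) r := rfl
      have h0' : (D.lv K hK st hst Z0).last (some q, g :: s) ((x, q', l) :: r) =
          (D.lv K hK st hst Z0).last (q', l ++ s) r := rfl
      rw [h0] at h
      obtain ⟨h1, h2⟩ := lvP_some_ne (left_ne_zero_of_mul h)
      have h3 := right_ne_zero_of_mul h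
      cases x with
      | none =>
        obtain ⟨n, hn, h4⟩ := tgt_none h1
        simp only [Prod.mk.injEq] at h4
        obtain ⟨rfl, rfl⟩ := h4
        obtain ⟨h5, c', h6, h7⟩ := ih n.1 (n.2 ++ s) h3
        refine ⟨by rw [h0, h2, h5, one_mul], c', by rw [h0', h6], ?_⟩
        rw [lv_inp_cons]
        exact Run.eps hn h7
      | some a =>
        obtain ⟨f, hf, h4⟩ := tgt_some h1
        simp only [Prod.mk.injEq] at h4
        obtain ⟨rfl, rfl⟩ := h4
        obtain ⟨h5, c', h6, h7⟩ := ih (f a).1 ((f a).2 ++ s) h3
        refine ⟨by rw [h0, h2, h5, one_mul], c', by rw [h0', h6], ?_⟩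
        rw [lv_inp_cons]
        exact Run.read hf h7

/-- Deterministic runs are computations of probability one. -/
theorem lv_exists {c c' : D.Q × List D.G} {w : List A} (h : D.Run c w c') :
    ∃ r : (D.lv K hK st hst Z0).Comp, (D.lv K hK st hst Z0).wt (some c.1, c.2) r = 1 ∧
      (D.lv K hK st hst Z0).inp r = w ∧
      (D.lv K hK st hst Z0).last (some c.1, c.2) r = (some c'.1, c'.2) := by
  induction h with
  | refl c => exact ⟨[], rfl, rfl, rfl⟩
  | @eps q g m s y c hδ _ ih =>
    obtain ⟨r, h1, h2, h3⟩ := ih
    refine ⟨(none, some m.1, m.2) :: r, ?_, ?_, ?_⟩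
    · have h0 : (D.lv K hK st hst Z0).wt (some q, g :: s) ((none, some m.1, m.2) :: r) =
          D.lvP K st (some q) g none (some m.1, m.2) *
            (D.lv K hK st hst Z0).wt (some m.1, m.2 ++ s) r := rfl
      rw [h0, h1, mul_one]
      apply lvP_some_eq
      unfold tgt
      rw [hδ]
    · rw [lv_inp_cons]
      exact h2
    · exact h3
  | @read q g a f s y c hδ _ ih =>
    obtain ⟨r, h1, h2, h3⟩ := ih
    refine ⟨(some a, some (f a).1, (f a).2) :: r, ?_, ?_, ?_⟩
    · have h0 : (D.lv K hK st hst Z0).wt (some q, g :: s) ((some a, some (f a).1, (f a).2) :: r) =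
          D.lvP K st (some q) g (some a) (some (f a).1, (f a).2) *
            (D.lv K hK st hst Z0).wt (some (f a).1, (f a).2 ++ s) r := rfl
      rw [h0, h1, mul_one]
      apply lvP_some_eq
      unfold tgt
      rw [hδ]
    · rw [lv_inp_cons]
      show a :: _ = a :: y
      rw [h2]
    · exact h3

/-- Two computations from the same proper state with the same input are comparable. -/
theorem lv_comparable (r1 : (D.lv K hK st hst Z0).Comp) :
    ∀ (r2 : (D.lv K hK st hst Z0).Comp) (q : D.Q) (s : List D.G),
    (D.lv K hK st hst Z0).wt (some q, s) r1 ≠ 0 → (D.lv K hK st hst Z0).wt (some q, s) r2 ≠ 0 →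
    (D.lv K hK st hst Z0).inp r1 = (D.lv K hK st hst Z0).inp r2 →
    r1 <+: r2 ∨ r2 <+: r1 := by
  induction r1 with
  | nil =>
    intro r2 q s _ _ _
    exact Or.inl (List.nil_prefix)
  | cons m1 r1 ih =>
    intro r2 q s h1 h2 hinp
    cases r2 with
    | nil => exact Or.inr (List.nil_prefix)
    | cons m2 r2 =>
      cases s with
      | nil => exact absurd rfl h1
      | cons g s =>
        obtain ⟨x1, q1, l1⟩ := m1
        obtain ⟨x2, q2, l2⟩ := m2
        have e1 : (D.lv K hK st hst Z0).wt (some q, g :: s) ((x1, q1, l1) :: r1) =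
          D.lvP K st (some q) g x1 (q1, l1) * (D.lv K hK st hst Z0).wt (q1, l1 ++ s) r1 := rfl
        have e2 : (D.lv K hK st hst Z0).wt (some q, g :: s) ((x2, q2, l2) :: r2) =
          D.lvP K st (some q) g x2 (q2, l2) * (D.lv K hK st hst Z0).wt (q2, l2 ++ s) r2 := rfl
        rw [e1] at h1
        rw [e2] at h2
        obtain ⟨a1, -⟩ := lvP_some_ne (left_ne_zero_of_mul h1)
        obtain ⟨a2, -⟩ := lvP_some_ne (left_ne_zero_of_mul h2)
        have b1 := right_ne_zero_of_mul h1
        have b2 := right_ne_zero_of_mul h2
        cases x1 with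
        | none =>
          obtain ⟨n, hn, h4⟩ := tgt_none a1
          cases x2 with
          | none =>
            rw [a1] at a2
            have h5 := Option.some.inj a2
            simp only [Prod.mk.injEq] at h4 h5
            obtain ⟨rfl, rfl⟩ := h4
            obtain ⟨rfl, rfl⟩ := h5
            rw [lv_inp_cons, lv_inp_cons] at hinp
            rcases ih r2 n.1 (n.2 ++ s) b1 b2 hinp with h6 | h6
            · exact Or.inl ((List.prefix_cons_inj _).2 h6)
            · exact Or.inr ((List.prefix_cons_inj _).2 h6)
          | some a =>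
            obtain ⟨f, hf, -⟩ := tgt_some a2
            rw [hn] at hf
            cases hf
        | some a =>
          obtain ⟨f, hf, h4⟩ := tgt_some a1
          cases x2 with
          | none =>
            obtain ⟨n, hn, -⟩ := tgt_none a2
            rw [hf] at hn
            cases hn
          | some a' =>
            rw [lv_inp_cons, lv_inp_cons] at hinp
            have h7 : a = a' ∧ (D.lv K hK st hst Z0).inp r1 = (D.lv K hK st hst Z0).inp r2 := by
              simpa using hinp
            obtain ⟨rfl, h7⟩ := h7
            rw [a1] at a2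
            have h5 := Option.some.inj a2
            simp only [Prod.mk.injEq] at h4 h5
            obtain ⟨rfl, rfl⟩ := h4
            obtain ⟨rfl, rfl⟩ := h5
            rcases ih r2 (f a).1 ((f a).2 ++ s) b1 b2 h7 with h6 | h6
            · exact Or.inl ((List.prefix_cons_inj _).2 h6)
            · exact Or.inr ((List.prefix_cons_inj _).2 h6)

/-- Structure of the computations from the initial configuration. -/
theorem lv_init (r : (D.lv K hK st hst Z0).Comp)
    (h : (D.lv K hK st hst Z0).wt (D.lv K hK st hst Z0).init r ≠ 0) :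
    r = [] ∨ ∃ (i : Fin K) (r' : (D.lv K hK st hst Z0).Comp),
      r = (none, some (st i), [Z0]) :: r' ∧
      (D.lv K hK st hst Z0).wt (some (st i), [Z0]) r' ≠ 0 ∧
      (D.lv K hK st hst Z0).wt (D.lv K hK st hst Z0).init r = (K : ℝ≥0∞)⁻¹ := by
  cases r with
  | nil => exact Or.inl rfl
  | cons m r =>
    right
    obtain ⟨x, q', l⟩ := m
    have h0 : (D.lv K hK st hst Z0).wt (D.lv K hK st hst Z0).init ((x, q', l) :: r) =
        D.lvP K st none Z0 x (q', l) * (D.lv K hK st hst Z0).wt (q', l ++ []) r := rfl
    rw [List.append_nil] at h0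
    rw [h0] at h
    obtain ⟨rfl, i, h1⟩ := lvP_none_ne (left_ne_zero_of_mul h)
    simp only [Prod.mk.injEq] at h1
    obtain ⟨rfl, rfl⟩ := h1
    have h2 := right_ne_zero_of_mul h
    refine ⟨i, r, rfl, h2, ?_⟩
    rw [h0, (lv_wt r (st i) [Z0] h2).1, mul_one]
    exact lvP_none_eq i

theorem lv_prefix (r' : (D.lv K hK st hst Z0).Comp) : ∀ (r : (D.lv K hK st hst Z0).Comp)
    (c : (D.lv K hK st hst Z0).Conf), r' <+: r → (D.lv K hK st hst Z0).wt c r ≠ 0 →
    (D.lv K hK st hst Z0).wt c r' ≠ 0 := by
  induction r' with
  | nil =>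
    intro r c _ _
    have : (D.lv K hK st hst Z0).wt c [] = 1 := by
      obtain ⟨q, s⟩ := c
      cases s <;> rfl
    rw [this]
    exact one_ne_zero
  | cons m r' ih =>
    intro r c hp hr
    cases r with
    | nil =>
      have := List.prefix_nil.1 hp
      cases this
    | cons m' r =>
      rw [List.cons_prefix_cons] at hp
      obtain ⟨rfl, hp⟩ := hp
      obtain ⟨q, s⟩ := c
      cases s with
      | nil => exact absurd rfl hr
      | cons g s =>
        have e1 : (D.lv K hK st hst Z0).wt (q, g :: s) (m :: r) =
          (D.lv K hK st hst Z0).p q g m.1 m.2 *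
            (D.lv K hK st hst Z0).wt (m.2.1, m.2.2 ++ s) r := rfl
        have e2 : (D.lv K hK st hst Z0).wt (q, g :: s) (m :: r') =
          (D.lv K hK st hst Z0).p q g m.1 m.2 *
            (D.lv K hK st hst Z0).wt (m.2.1, m.2.2 ++ s) r' := rfl
        rw [e1] at hr
        rw [e2]
        exact mul_ne_zero (left_ne_zero_of_mul hr) (ih r _ hp (right_ne_zero_of_mul hr))

/-- The first moment at which `P` holds. -/
theorem lv_minimal (w : List A) (P : (D.lv K hK st hst Z0).Conf → Prop) (n : ℕ) :
    ∀ r : (D.lv K hK st hst Z0).Comp, r.length = n → (D.lv K hK st hst Z0).inp r = w →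
    P ((D.lv K hK st hst Z0).last (D.lv K hK st hst Z0).init r) →
    ∃ r'', r'' <+: r ∧ (D.lv K hK st hst Z0).inp r'' = w ∧
      P ((D.lv K hK st hst Z0).last (D.lv K hK st hst Z0).init r'') ∧
      ∀ r', r' <+: r'' → r' ≠ r'' → (D.lv K hK st hst Z0).inp r' = w →
        ¬ P ((D.lv K hK st hst Z0).last (D.lv K hK st hst Z0).init r') := by
  induction n using Nat.strong_induction_on with
  | _ n ih =>
    intro r hn h1 h2
    by_cases hc : ∃ r', r' <+: r ∧ r' ≠ r ∧ (D.lv K hK st hst Z0).inp r' = w ∧
        P ((D.lv K hK st hst Z0).last (D.lv K hK st hst Z0).init r')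
    · obtain ⟨r', h3, h4, h5, h6⟩ := hc
      have h7 : r'.length < n := by
        rw [← hn]
        refine lt_of_le_of_ne h3.length_le fun h => h4 (h3.eq_of_length h)
      obtain ⟨r'', h8, h9⟩ := ih _ h7 r' rfl h5 h6
      exact ⟨r'', h8.trans h3, h9⟩
    · refine ⟨r, List.prefix_rfl, h1, h2, ?_⟩
      intro r' h3 h4 h5 h6
      exact hc ⟨r', h3, h4, h5, h6⟩

/-- Two minimal computations with the same first move are equal. -/
theorem lv_unique {w : List A} {P : (D.lv K hK st hst Z0).Conf → Prop}
    {r1 r2 : (D.lv K hK st hst Z0).Comp} {i : Fin K} {s1 s2 : (D.lv K hK st hst Z0).Comp}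
    (e1 : r1 = (none, some (st i), [Z0]) :: s1) (e2 : r2 = (none, some (st i), [Z0]) :: s2)
    (w1 : (D.lv K hK st hst Z0).wt (some (st i), [Z0]) s1 ≠ 0)
    (w2 : (D.lv K hK st hst Z0).wt (some (st i), [Z0]) s2 ≠ 0)
    (h1 : (D.lv K hK st hst Z0).inp r1 = w ∧
      P ((D.lv K hK st hst Z0).last (D.lv K hK st hst Z0).init r1) ∧
      ∀ r', r' <+: r1 → r' ≠ r1 → (D.lv K hK st hst Z0).inp r' = w →
        ¬ P ((D.lv K hK st hst Z0).last (D.lv K hK st hst Z0).init r'))
    (h2 : (D.lv K hK st hst Z0).inp r2 = w ∧
      P ((D.lv K hK st hst Z0).last (D.lv K hK st hst Z0).init r2) ∧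
      ∀ r', r' <+: r2 → r' ≠ r2 → (D.lv K hK st hst Z0).inp r' = w →
        ¬ P ((D.lv K hK st hst Z0).last (D.lv K hK st hst Z0).init r')) : r1 = r2 := by
  have hinp : (D.lv K hK st hst Z0).inp s1 = (D.lv K hK st hst Z0).inp s2 := by
    have a1 := h1.1
    have a2 := h2.1
    rw [e1, lv_inp_cons] at a1
    rw [e2, lv_inp_cons] at a2
    exact a1.trans a2.symm
  rcases lv_comparable s1 s2 (st i) [Z0] w1 w2 hinp with h | h
  · have hp : r1 <+: r2 := by
      rw [e1, e2]
      exact (List.prefix_cons_inj _).2 h
    by_contra hne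
    exact h2.2.2 r1 hp hne h1.1 h1.2.1
  · have hp : r2 <+: r1 := by
      rw [e1, e2]
      exact (List.prefix_cons_inj _).2 h
    by_contra hne
    exact h1.2.2 r2 hp (fun h => hne h.symm) h2.1 h2.2.1

end machine

end DetM

/-- If the `K` starting states give verdicts on every word such that the committed verdicts are
right and at most one of the starting states gives the verdict `neu`, then the language
is in `LVCF_ε` for `ε = 1 / K`. -/
theorem inLVCF_of_detM {A : Type} [Finite A] (D : DetM A) (K : ℕ) (hK : 0 < K)
    (st : Fin K → D.Q) (hst : Function.Injective st) (Z0 : D.G) (L : Set (List A))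
    (h : ∀ w, ∃ v : Fin K → Kind, (∀ i, D.Out (st i, [Z0]) w (v i)) ∧
      (w ∈ L → ∀ i, v i ≠ Kind.rej) ∧ (w ∉ L → ∀ i, v i ≠ Kind.acc) ∧
      (∀ i j, v i = Kind.neu → v j = Kind.neu → i = j)) :
    InLVCF (1 / K) L := by
  classical
  set M := D.lv K hK st hst Z0 with hM
  refine ⟨M, ?_⟩
  intro w
  obtain ⟨v, hv, hv1, hv2, hv3⟩ := h w
  -- structure of the last configuration
  have hlast : ∀ (i : Fin K) (r : M.Comp), M.wt (some (st i), [Z0]) r ≠ 0 → M.inp r = w →
      ∃ c' : D.Q × List D.G, M.last M.init ((none, some (st i), [Z0]) :: r) = (some c'.1, c'.2) ∧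
        D.Run (st i, [Z0]) w c' := by
    intro i r hr hw
    obtain ⟨-, c', h1, h2⟩ := DetM.lv_wt r (st i) [Z0] hr
    refine ⟨c', ?_, ?_⟩
    · have : M.last M.init ((none, some (st i), [Z0]) :: r) = M.last (some (st i), [Z0] ++ []) r := rfl
      rw [this, List.append_nil]
      exact h1
    · rw [← hw]
      exact h2
  -- committed kinds
  have hcomm : ∀ (k : Kind), k ≠ Kind.neu → (∀ i, v i ≠ k) →
      M.prob w (fun c => M.kind c.1 = k) = 0 := by
    intro k hk hvk
    unfold LVPDA.prob
    rw [ENNReal.tsum_eq_zero]
    rintro ⟨r, h1, h2, h3⟩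
    by_contra hne
    rcases DetM.lv_init r hne with h4 | ⟨i, r', h4, h5, -⟩
    · subst h4
      exact hk (h2.symm.trans rfl)
    · subst h4
      obtain ⟨c', h6, h7⟩ := hlast i r' h5 h1
      simp only [h6] at h2
      exact hvk i ((hv i).eq_of_kind h7 h2 hk)
  have hge : ∀ (k : Kind), k ≠ Kind.neu →
      ((Finset.univ.filter (fun i => v i = k)).card : ℝ≥0∞) * (K : ℝ≥0∞)⁻¹ ≤
        M.prob w (fun c => M.kind c.1 = k) := by
    intro k hk
    have hex : ∀ i : {i // v i = k}, ∃ r : {r : M.Comp // M.inp r = w ∧
        M.kind (M.last M.init r).1 = k ∧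
        ∀ r', r' <+: r → r' ≠ r → M.inp r' = w → ¬ M.kind (M.last M.init r').1 = k},
        M.wt M.init r.1 = (K : ℝ≥0∞)⁻¹ ∧ ∃ r', r.1 = (none, some (st i.1), [Z0]) :: r' := by
      rintro ⟨i, hi⟩
      obtain ⟨c', h1, -, h3⟩ := hv i
      have h4 := h3 (by rw [hi]; exact hk)
      obtain ⟨r, h5, h6, h7⟩ := DetM.lv_exists (hK := hK) (st := st) (hst := hst) (Z0 := Z0) h1
      have hlr : M.last M.init ((none, some (st i), [Z0]) :: r) = (some c'.1, c'.2) := by
        have : M.last M.init ((none, some (st i), [Z0]) :: r) =
          M.last (some (st i), [Z0] ++ []) r := rfl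
        rw [this, List.append_nil]
        exact h7
      have hwr : M.wt M.init ((none, some (st i), [Z0]) :: r) ≠ 0 := by
        have : M.wt M.init ((none, some (st i), [Z0]) :: r) =
          D.lvP K st none Z0 none (some (st i), [Z0]) * M.wt (some (st i), [Z0] ++ []) r := rfl
        rw [this, List.append_nil]
        refine mul_ne_zero ?_ (by rw [h5]; exact one_ne_zero)
        rw [DetM.lvP_none_eq]
        exact ENNReal.inv_ne_zero.2 (ENNReal.natCast_ne_top K)
      obtain ⟨r'', h8, h9, h10, h11⟩ := DetM.lv_minimal (hK := hK) (st := st) (hst := hst)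
        (Z0 := Z0) w (fun c => M.kind c.1 = k) _ ((none, some (st i), [Z0]) :: r) rfl
        (by rw [DetM.lv_inp_cons]; exact h6)
        (by
          show M.kind (M.last M.init ((none, some (st i), [Z0]) :: r)).1 = k
          rw [hlr, ← hi]
          exact h4)
      have hw'' : M.wt M.init r'' ≠ 0 := DetM.lv_prefix r'' _ _ h8 hwr
      rcases DetM.lv_init r'' hw'' with h12 | ⟨j, s, h12, h13, h14⟩
      · subst h12
        exact absurd (h10.symm.trans rfl) hk
      · refine ⟨⟨r'', h9, h10, h11⟩, h14, s, ?_⟩
        show r'' = _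
        rw [h12] at h8 ⊢
        rw [List.cons_prefix_cons] at h8
        rw [h8.1]
    choose f hf1 hf2 using hex
    have hinj : Function.Injective f := by
      rintro ⟨i, hi⟩ ⟨j, hj⟩ hij
      obtain ⟨r1, h1⟩ := hf2 ⟨i, hi⟩
      obtain ⟨r2, h2⟩ := hf2 ⟨j, hj⟩
      rw [hij, h2] at h1
      simp only [List.cons.injEq, Prod.mk.injEq, Option.some.injEq, true_and, and_true] at h1
      have := hst h1.1
      subst this
      rfl
    have h1 := ENNReal.tsum_comp_le_tsum_of_injective hinj (fun r => M.wt M.init r.1)
    refine le_trans (le_of_eq ?_) h1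
    rw [tsum_congr hf1, tsum_fintype, Finset.sum_const, nsmul_eq_mul, Finset.card_univ,
      Fintype.card_subtype]
  refine ⟨fun hw => hcomm _ (by decide) (hv1 hw), fun hw => hcomm _ (by decide) (hv2 hw), ?_, ?_⟩
  · -- the answer ?
    have hneu : ∀ (i : Fin K) (r : M.Comp), M.wt (some (st i), [Z0]) r ≠ 0 → M.inp r = w →
        M.Stays (M.last M.init ((none, some (st i), [Z0]) :: r)) → v i = Kind.neu := by
      intro i r hr hw hs
      obtain ⟨c', h1, h2⟩ := hlast i r hr hw
      refine (hv i).eq_neu h2 ?_
      intro c'' hc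
      obtain ⟨r', h3, h4, h5⟩ := DetM.lv_exists (hK := hK) (st := st) (hst := hst) (Z0 := Z0) hc
      rw [h1] at hs
      have h6 := hs r' h4 (by rw [h3]; exact one_ne_zero)
      rw [h5] at h6
      exact h6
    show M.prob w M.Stays ≤ 1 / K
    unfold LVPDA.prob
    by_cases hemp : M.inp [] = w ∧ M.Stays (M.last M.init [])
    · -- the empty computation
      obtain ⟨he1, he2⟩ := hemp
      have hall : ∀ i, v i = Kind.neu := by
        intro i
        by_contra hi
        obtain ⟨c', h1, -, h3⟩ := hv i
        have h4 := h3 hi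
        have hwnil : w = [] := he1.symm
        obtain ⟨r, h5, h6, h7⟩ := DetM.lv_exists (hK := hK) (st := st) (hst := hst) (Z0 := Z0) h1
        have h8 := he2 ((none, some (st i), [Z0]) :: r)
          (by rw [DetM.lv_inp_cons]; exact h6.trans hwnil) ?_
        · have : M.last (M.last M.init []) ((none, some (st i), [Z0]) :: r) =
            M.last (some (st i), [Z0] ++ []) r := rfl
          rw [this, List.append_nil] at h8
          erw [h7] at h8
          exact hi (h4.symm.trans h8)
        · have : M.wt (M.last M.init []) ((none, some (st i), [Z0]) :: r) =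
            D.lvP K st none Z0 none (some (st i), [Z0]) * M.wt (some (st i), [Z0] ++ []) r := rfl
          rw [this, List.append_nil]
          refine mul_ne_zero ?_ (by erw [h5]; exact one_ne_zero)
          rw [DetM.lvP_none_eq]
          exact ENNReal.inv_ne_zero.2 (ENNReal.natCast_ne_top K)
      have hK1 : K = 1 := by
        by_contra hne
        have h2 : 1 < K := by omega
        have := hv3 ⟨0, hK⟩ ⟨1, h2⟩ (hall _) (hall _)
        simp at this
      rw [tsum_eq_single ⟨[], he1, he2, fun r' h1 h2 _ _ => h2 (List.prefix_nil.1 h1)⟩]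
      · show M.wt M.init [] ≤ 1 / K
        have : M.wt M.init [] = 1 := rfl
        rw [this, hK1]
        simp
      · rintro ⟨r, h1, h2, h3⟩ hne
        exfalso
        apply h3 [] List.nil_prefix ?_ he1 he2
        intro h4
        apply hne
        subst h4
        rfl
    · -- at most one nonzero term
      by_cases hex : ∃ r0 : {r : M.Comp // M.inp r = w ∧ M.Stays (M.last M.init r) ∧
          ∀ r', r' <+: r → r' ≠ r → M.inp r' = w → ¬ M.Stays (M.last M.init r')},
          M.wt M.init r0.1 ≠ 0
      · obtain ⟨⟨r0, a1, a2, a3⟩, h0⟩ := hex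
        rcases DetM.lv_init r0 h0 with h4 | ⟨i, r', h4, h5, h6⟩
        · subst h4
          exact absurd ⟨a1, a2⟩ hemp
        · rw [tsum_eq_single ⟨r0, a1, a2, a3⟩]
          · show M.wt M.init r0 ≤ 1 / K
            rw [h6, one_div]
          · rintro ⟨r1, b1, b2, b3⟩ hne
            by_contra h7
            rcases DetM.lv_init r1 h7 with h8 | ⟨j, r'', h8, h9, -⟩
            · subst h8
              exact hemp ⟨b1, b2⟩
            · apply hne
              have hi : v i = Kind.neu := by
                refine hneu i r' h5 ?_ (h4 ▸ a2)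
                rw [h4, DetM.lv_inp_cons] at a1
                exact a1
              have hj : v j = Kind.neu := by
                refine hneu j r'' h9 ?_ (h8 ▸ b2)
                rw [h8, DetM.lv_inp_cons] at b1
                exact b1
              have hij := hv3 i j hi hj
              subst hij
              apply Subtype.ext
              exact (DetM.lv_unique h4 h8 h5 h9 ⟨a1, a2, a3⟩ ⟨b1, b2, b3⟩).symm
      · push Not at hex
        rw [ENNReal.tsum_eq_zero.2 hex]
        exact bot_le
  · -- the committed answers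
    have h1 := add_le_add (hge Kind.acc (by decide)) (hge Kind.rej (by decide))
    refine le_trans ?_ h1
    rw [← add_mul]
    have hcard : K ≤ (Finset.univ.filter (fun i => v i = Kind.acc)).card +
        (Finset.univ.filter (fun i => v i = Kind.rej)).card + 1 := by
      have h2 : (Finset.univ : Finset (Fin K)) = Finset.univ.filter (fun i => v i = Kind.acc) ∪
          Finset.univ.filter (fun i => v i = Kind.rej) ∪
          Finset.univ.filter (fun i => v i = Kind.neu) := by
        ext i
        simp only [Finset.mem_univ, Finset.mem_union, Finset.mem_filter, true_and, true_iff]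
        cases v i <;> simp
      have h3 : (Finset.univ.filter (fun i => v i = Kind.neu)).card ≤ 1 := by
        rw [Finset.card_le_one]
        intro i hi j hj
        exact hv3 i j (Finset.mem_filter.1 hi).2 (Finset.mem_filter.1 hj).2
      have h4 : K = (Finset.univ : Finset (Fin K)).card := by simp
      have h5 := congrArg Finset.card h2
      rw [← h4] at h5
      refine h5.le.trans ((Finset.card_union_le _ _).trans ?_)
      exact add_le_add (Finset.card_union_le _ _) h3
    have hKne : (K : ℝ≥0∞) ≠ 0 := by exact_mod_cast hK.ne'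
    have hKtop : (K : ℝ≥0∞) ≠ ⊤ := ENNReal.natCast_ne_top K
    rw [tsub_le_iff_right, one_div]
    have h5 : (1 : ℝ≥0∞) = (K : ℝ≥0∞) * (K : ℝ≥0∞)⁻¹ := (ENNReal.mul_inv_cancel hKne hKtop).symm
    calc (1 : ℝ≥0∞) = (K : ℝ≥0∞) * (K : ℝ≥0∞)⁻¹ := h5
      _ ≤ (((Finset.univ.filter (fun i => v i = Kind.acc)).card : ℝ≥0∞) +
          ((Finset.univ.filter (fun i => v i = Kind.rej)).card : ℝ≥0∞) + 1) * (K : ℝ≥0∞)⁻¹ := by
        gcongr
        exact_mod_cast hcard
      _ = _ := by rw [add_mul, one_mul]

end LVP
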