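import Pool.Agent.H82.LVP.Ext

/-!
# The growth lemma

Proof. With `ext` (for `x = x' = plus`) a `Good` situation can be extended: there are `w` and
`(q', β')` with `Run (q, β) (w plus) (q', β')` and `Good (u w plus) q' β' α`. Assume that the
conclusion fails. Iterate: this gives `Good` situations `(u_t, q_t, β_t)`, `t = 1, 2, ...`, with
the same `α`, `u_{t+1} = u_t w_t plus`, all reached from `(q, β)` by `Run (q, β) (...) (q_t, β_t)`.
As `(q_t, β_t)` is robust, `β_t ≠ []` (`Reads.ne_nil`), so `β_t = β'_t ++ [g_t]`. By assumption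
`(q_t, β'_t)` is not robust (otherwise take `β' = β'_t`, `g = g_t`). So more than half of the `w`
are such that `w plus` cannot be read from `(q_t, β'_t)`, while at least half can be read from
`(q_t, β_t)`: some `w` does both, and by `touch_of_not_reads` (with `α := [g_t]`) there is a prefix
`y1` of `w` with `Run (q_t, β'_t) y1 (p_t, [])`, so that `Run ini (u_t y1) (p_t, g_t :: α)`. By the
pigeonhole principle there are `s < t` with `(p_s, g_s) = (p_t, g_t)`. The word
`u_s y1_s minus^(#plus u_s) fin` is in the language (`mem_fin`), so it is accepted; the accepting run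
passes through `(p_s, g_s :: α)` (`Run.conf`), so `u_t y1_t minus^(#plus u_s) fin` is accepted, too,
although `#plus u_t > #plus u_s`: contradiction with `mem_fin`.
-/

namespace LVP

private theorem mem_bits_aux {w : List Bool} {a : Ltr} (h : a ∈ bits w) : ∃ b, a = Ltr.bit b := by
  unfold bits at h
  rw [List.mem_map] at h
  obtain ⟨b, -, rfl⟩ := h
  exact ⟨b, rfl⟩

private theorem count_plus_aux {l : List Ltr} (h : ∀ a ∈ l, ∃ b, a = Ltr.bit b) :
    l.count Ltr.plus = 0 := by
  rw [List.count_eq_zero]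
  intro hm
  obtain ⟨b, hb⟩ := h _ hm
  cases hb

private theorem count_minus_aux {l : List Ltr} (h : ∀ a ∈ l, ∃ b, a = Ltr.bit b) :
    l.count Ltr.minus = 0 := by
  rw [List.count_eq_zero]
  intro hm
  obtain ⟨b, hb⟩ := h _ hm
  cases hb

/-- Iterated extension. -/
private theorem iter_aux {M : DPDA Ltr} (hM : ∀ w, w ∈ Lang ↔ M.Accepts w) {n : ℕ}
    (hn : 4 * Nat.card M.Q * (n + 1) < 2 ^ n) {u : List Ltr} {q : M.Q}
    {β α : List M.G} (h : Good M n u q β α) (t : ℕ) :
    ∃ (y : List Ltr) (q' : M.Q) (β' : List M.G), y.count Ltr.plus = t ∧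
      M.Run (q, β) y (q', β') ∧ Good M n (u ++ y) q' β' α := by
  induction t with
  | zero => exact ⟨[], q, β, by simp, DPDA.Run.refl _, by simpa using h⟩
  | succ t ih =>
    obtain ⟨y, q1, β1, hy, hr, hg⟩ := ih
    obtain ⟨w, q2, β2, hr2, hR2⟩ := ext hM hn hg.blocky hg.run (x := Ltr.plus) trivial hg.rob
      (x' := Ltr.plus) trivial
    have hbits : ∀ a ∈ bits (List.ofFn w), ∃ b, a = Ltr.bit b := fun a ha => mem_bits_aux ha
    refine ⟨y ++ (bits (List.ofFn w) ++ [Ltr.plus]), q2, β2, ?_, hr.trans hr2, ?_, ?_, ?_, hR2⟩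
    · rw [List.count_append, List.count_append, hy, count_plus_aux hbits]
      simp
    · constructor
      · intro a ha
        rw [← List.append_assoc] at ha
        rcases List.mem_append.1 ha with ha | ha
        · exact hg.blocky.1 a ha
        · rcases List.mem_append.1 ha with ha | ha
          · obtain ⟨b, rfl⟩ := hbits a ha
            trivial
          · rw [List.mem_singleton.1 ha]
            trivial
      · intro hne
        have : (u ++ (y ++ (bits (List.ofFn w) ++ [Ltr.plus])))
            = (u ++ y ++ bits (List.ofFn w)) ++ [Ltr.plus] := by simp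
        simp only [this, List.getLast_append_singleton]
        trivial
    · rw [← List.append_assoc, List.count_append, hg.noMinus, List.count_append,
        count_minus_aux hbits]
      simp
    · have := hg.run.trans (hr2.lift' α)
      simpa using this

/-- The situation found inside a block. -/
private theorem touch_aux {M : DPDA Ltr} {n : ℕ} {u : List Ltr} {q : M.Q} {β α : List M.G} {g : M.G}
    (hu : Blocky u) (hm : u.count Ltr.minus = 0) (hrun : M.Run M.ini u (q, β ++ g :: α))
    (hR : Rob M n Ltr.plus (q, β ++ [g])) (hR' : ¬ Rob M n Ltr.plus (q, β)) :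
    ∃ (v : List Ltr) (p : M.Q), (∀ a ∈ v, a.Main) ∧ v.count Ltr.minus = 0 ∧
      v.count Ltr.plus = u.count Ltr.plus ∧ M.Run M.ini v (p, g :: α) := by
  obtain ⟨w, hw1, hw2⟩ : ∃ w : Fin n → Bool, M.Reads (q, β ++ [g]) (bits (List.ofFn w) ++ [Ltr.plus]) ∧
      ¬ M.Reads (q, β) (bits (List.ofFn w) ++ [Ltr.plus]) := by
    by_contra hcon
    push Not at hcon
    apply hR'
    unfold Rob at hR ⊢
    refine hR.trans (Nat.mul_le_mul_left 2 ?_)
    exact Nat.card_le_card_of_injective
      (fun x : {w : Fin n → Bool // M.Reads (q, β ++ [g]) (bits (List.ofFn w) ++ [Ltr.plus])} =>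
        (⟨x.1, hcon x.1 x.2⟩ :
          {w : Fin n → Bool // M.Reads (q, β) (bits (List.ofFn w) ++ [Ltr.plus])}))
      (fun x y hxy => by
        simp only [Subtype.mk.injEq] at hxy
        exact Subtype.ext hxy)
  obtain ⟨y1, y2, p, hy, hy2, hr1, hr2⟩ := DPDA.touch_of_not_reads hw1 hw2
  obtain ⟨y3, z, rfl⟩ : ∃ y3 z, y2 = y3 ++ [z] :=
    ⟨y2.dropLast, y2.getLast hy2, (List.dropLast_append_getLast hy2).symm⟩
  rw [← List.append_assoc] at hy
  have hpre := (List.append_inj' hy rfl).1
  have hbits : ∀ a ∈ y1, ∃ b, a = Ltr.bit b := fun a ha =>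
    mem_bits_aux (w := List.ofFn w) (by rw [hpre]; exact List.mem_append_left _ ha)
  refine ⟨u ++ y1, p, ?_, ?_, ?_, ?_⟩
  · intro a ha
    rcases List.mem_append.1 ha with ha | ha
    · exact hu.1 a ha
    · obtain ⟨b, rfl⟩ := hbits a ha
      trivial
  · rw [List.count_append, hm, count_minus_aux hbits]
  · rw [List.count_append, count_plus_aux hbits, add_zero]
  · have := hrun.trans (hr1.lift' (g :: α))
    simpa using this

theorem growth {M : DPDA Ltr} (hM : ∀ w, w ∈ Lang ↔ M.Accepts w) {n : ℕ}
    (hn : 4 * Nat.card M.Q * (n + 1) < 2 ^ n) {u : List Ltr} {q : M.Q}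
    {β α : List M.G} (h : Good M n u q β α) :
    ∃ (y : List Ltr) (q' : M.Q) (β' : List M.G) (g : M.G), 1 ≤ y.count Ltr.plus ∧
      M.Run (q, β) y (q', β' ++ [g]) ∧ Good M n (u ++ y) q' β' (g :: α) := by
  by_contra hcon
  push Not at hcon
  have key : ∀ t : ℕ, ∃ (v : List Ltr) (pg : M.Q × M.G), (∀ a ∈ v, a.Main) ∧
      v.count Ltr.minus = 0 ∧ v.count Ltr.plus = u.count Ltr.plus + (t + 1) ∧
      M.Run M.ini v (pg.1, pg.2 :: α) := by
    intro t
    obtain ⟨y, q1, β1, hy, hr, hg⟩ := iter_aux hM hn h (t + 1)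
    have hne : β1 ≠ [] := by
      have hR := hg.rob
      unfold Rob at hR
      have hpos : 0 < Nat.card {w : Fin n → Bool //
          M.Reads (q1, β1) (bits (List.ofFn w) ++ [Ltr.plus])} := by
        by_contra h0
        have : 0 < 2 ^ n := by positivity
        omega
      obtain ⟨⟨w, hw⟩⟩ := (Nat.card_pos_iff.1 hpos).1
      exact hw.ne_nil (by simp)
    obtain ⟨β2, g, rfl⟩ : ∃ β2 g, β1 = β2 ++ [g] :=
      ⟨β1.dropLast, β1.getLast hne, (List.dropLast_append_getLast hne).symm⟩
    have hrun : M.Run M.ini (u ++ y) (q1, β2 ++ g :: α) := by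
      have := hg.run
      simpa using this
    have hnR : ¬ Rob M n Ltr.plus (q1, β2) := by
      intro hR
      exact hcon y q1 β2 g (by omega) hr ⟨hg.blocky, hg.noMinus, hrun, hR⟩
    obtain ⟨v, p, h1, h2, h3, h4⟩ := touch_aux hg.blocky hg.noMinus hrun hg.rob hnR
    exact ⟨v, (p, g), h1, h2, by rw [h3, List.count_append, hy], h4⟩
  choose v pg hmain hminus hplus hrun using key
  have := M.finQ
  have := M.finG
  obtain ⟨s, t, hst, heq⟩ := Finite.exists_ne_map_eq_of_infinite pg
  set z : List Ltr := List.replicate ((v s).count Ltr.plus) Ltr.minus with hz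
  have hzmain : ∀ a ∈ z, a.Main := by
    intro a ha
    rw [hz] at ha
    rw [List.eq_of_mem_replicate ha]
    trivial
  have hzp : z.count Ltr.plus = 0 := by
    rw [hz, List.count_replicate]
    rfl
  have hzm : z.count Ltr.minus = (v s).count Ltr.plus := by
    rw [hz, List.count_replicate_self]
  have hmain' : ∀ r, ∀ a ∈ v r ++ z, a.Main := by
    intro r a ha
    rcases List.mem_append.1 ha with ha | ha
    · exact hmain r a ha
    · exact hzmain a ha
  have h1 : (v s ++ z) ++ [Ltr.fin] ∈ Lang := by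
    rw [mem_fin (hmain' s), List.count_append, List.count_append, hzp, hzm, hminus s]
    omega
  obtain ⟨c, hc, hcF⟩ := (hM _).1 h1
  rw [List.append_assoc] at hc
  have hc' := (hrun s).conf hc (by simp)
  rw [heq] at hc'
  have h2 : (v t ++ z) ++ [Ltr.fin] ∈ Lang := by
    rw [hM]
    refine ⟨c, ?_, hcF⟩
    rw [List.append_assoc]
    exact (hrun t).trans hc'
  rw [mem_fin (hmain' t), List.count_append, List.count_append, hzp, hzm, hminus t,
    hplus t, hplus s] at h2
  omega

end LVP
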