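import Pool.Agent.H82.LVP.Flush

/-!
# The invariant of the main loop

Proof of `exists_inv`: induction on `u` from the right (`List.reverseRecOn`). For a bit: the machine
pushes the bit. For a sign: `nextSgn`; if `c + 1 ≠ 0` push `sep`, and
`(c + 1).val = c.val + 1` (`ZMod.val_add_one_of_lt` or similar), `badd` is exact as
`|b| + 1 ≤ K`. If `c + 1 = 0` use `run_flush`.
-/

namespace LVP

/-- Bits as stack symbols. -/
def sbits (w : List Bool) : List SG := w.map SG.bit

/-- The number of signs of a word. -/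
def nsgn (u : List Ltr) : ℕ := u.count Ltr.plus + u.count Ltr.minus

/-- The invariant: `w'` is the current block (so far), and `w` the previous one. -/
structure Inv {K : ℕ} [NeZero K] (i : ZMod K) (u : List Ltr) (c : ZMod K) (b : Buf K) (s : Bool)
    (st : List SG) : Prop where
  hc : c = i + (nsgn u : ZMod K)
  hs : s = true ↔ nsgn u ≠ 0
  hb : b.1.natAbs ≤ c.val
  shape : ∃ (G : List SG) (v : ℤ), (∀ g ∈ G, g.Blk) ∧ st = G ++ cst v ∧
    v + b.1 = (u.count Ltr.plus : ℤ) - (u.count Ltr.minus : ℤ)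
  cur0 : s = false → ∃ w', u = bits w' ∧ ∃ v, st = sbits w'.reverse ++ cst v
  cur1 : s = true → c = 0 → ∃ (w' : List Bool) (v : ℤ), st = sbits w'.reverse ++ cst v
  cur2 : s = true → c ≠ 0 → ∃ (v0 : List Ltr) (w w' : List Bool) (x : Ltr) (R : List SG),
    (∀ a ∈ v0, a.Main) ∧ (∀ h : v0 ≠ [], (v0.getLast h).IsSgn) ∧ x.IsSgn ∧
    u = v0 ++ bits w ++ [x] ++ bits w' ∧
    st = sbits w'.reverse ++ SG.sep :: (sbits w.reverse ++ R) ∧
    ∃ g R', R = g :: R' ∧ ∀ y, g ≠ SG.bit y

private theorem inv_trans {A : Type} {D : DetM A} {c c' c'' : D.Q × List D.G} {y z : List A}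
    (h : D.Run c y c') (h' : D.Run c' z c'') : D.Run c (y ++ z) c'' := by
  induction h with
  | refl c => simpa using h'
  | eps hδ _ ih => exact DetM.Run.eps hδ (ih h')
  | read hδ _ ih => exact DetM.Run.read hδ (ih h')

private theorem inv_cst_head (v : ℤ) : ∃ g R', cst v = g :: R' ∧ ∀ y, g ≠ SG.bit y := by
  unfold cst
  cases h : v.natAbs with
  | zero => exact ⟨.bot, [], by simp, fun y => by simp⟩
  | succ k =>
    exact ⟨.cnt (decide (0 < v)), List.replicate k (.cnt (decide (0 < v))) ++ [.bot],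
      by simp [List.replicate_succ], fun y => by simp⟩

private theorem inv_sbits_snoc (w : List Bool) (x : Bool) :
    sbits (w ++ [x]).reverse = SG.bit x :: sbits w.reverse := by
  simp [sbits]

private theorem inv_bits_snoc (w : List Bool) (x : Bool) :
    bits (w ++ [x]) = bits w ++ [Ltr.bit x] := by
  simp [bits]

private theorem inv_val_succ {K : ℕ} [NeZero K] {c : ZMod K} (h : c + 1 ≠ 0) :
    (c + 1).val = c.val + 1 ∧ c.val + 1 < K := by
  have hK1 : K ≠ 1 := by
    rintro rfl
    exact h (Subsingleton.elim _ _)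
  have h1 : (1 : ZMod K).val = 1 := ZMod.val_one'' hK1
  have h2 : c.val < K := ZMod.val_lt c
  have h3 : c.val + 1 ≠ K := by
    intro h4
    apply h
    have h5 : ((c.val + 1 : ℕ) : ZMod K) = c + 1 := by
      push_cast
      rw [ZMod.natCast_zmod_val]
    rw [← h5, h4, ZMod.natCast_self]
  have h4 : c.val + 1 < K := by omega
  refine ⟨?_, h4⟩
  rw [ZMod.val_add_of_lt (by rw [h1]; exact h4), h1]

private theorem inv_badd {K : ℕ} [NeZero K] {c : ZMod K} {b : Buf K} (hb : b.1.natAbs ≤ c.val)
    {x : ℤ} (hx : x.natAbs = 1) : (badd b x).1 = b.1 + x := by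
  have h2 : c.val < K := ZMod.val_lt c
  unfold badd
  rw [Set.projIcc_of_mem _ (by constructor <;> omega)]

/-- The block at the top of the stack is the last block of the word. -/
private def InvTop (u : List Ltr) (st : List SG) : Prop :=
  ∃ (v0 : List Ltr) (w : List Bool) (g : SG) (R : List SG),
    (∀ a ∈ v0, a.Main) ∧ (∀ h : v0 ≠ [], (v0.getLast h).IsSgn) ∧ u = v0 ++ bits w ∧
    st = sbits w.reverse ++ g :: R ∧ ∀ y, g ≠ SG.bit y

private theorem inv_main_snoc {u : List Ltr} (hu : ∀ a ∈ u, a.Main) {a : Ltr} (ha : a.IsSgn) :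
    ∀ b ∈ u ++ [a], b.Main := by
  intro b hb
  rcases List.mem_append.1 hb with h | h
  · exact hu b h
  · rw [List.mem_singleton] at h
    subst h
    cases b <;> simp_all [Ltr.IsSgn, Ltr.Main]

private theorem inv_sgn {K : ℕ} [NeZero K] (i : ZMod K) {u : List Ltr} (hu : ∀ a ∈ u, a.Main)
    {c : ZMod K} {b : Buf K} {s : Bool} {st : List SG} (H : Inv i u c b s st) (ht : InvTop u st)
    {a : Ltr} {x : ℤ} (ha : a.IsSgn) (hx : x.natAbs = 1)
    (hcp : ((u ++ [a]).count Ltr.plus : ℤ) - ((u ++ [a]).count Ltr.minus : ℤ) =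
      (u.count Ltr.plus : ℤ) - (u.count Ltr.minus : ℤ) + x)
    (hns : nsgn (u ++ [a]) = nsgn u + 1)
    (hact : ∀ g, ∃ f, (mach K).act (.main c b s) g = Sum.inr f ∧ f a = nextSgn c b x g) :
    ∃ c' b' s' st', (mach K).Run (.main c b s, st) [a] (.main c' b' s', st') ∧
      Inv i (u ++ [a]) c' b' s' st' ∧ InvTop (u ++ [a]) st' := by
  obtain ⟨G, v, hG, hst, hv⟩ := H.shape
  obtain ⟨gc, Rc, hcst, hgc⟩ := inv_cst_head v
  have hne : ∃ g st₀, st = g :: st₀ := by
    rw [hst, hcst]
    cases G with
    | nil => exact ⟨gc, Rc, rfl⟩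
    | cons g G => exact ⟨g, G ++ gc :: Rc, rfl⟩
  obtain ⟨g, st₀, hst₀⟩ := hne
  obtain ⟨f, hf, hfa⟩ := hact g
  have hbx : (badd b x).1 = b.1 + x := inv_badd H.hb hx
  have hmain := inv_main_snoc hu ha
  have hlast : ∀ h : u ++ [a] ≠ [], ((u ++ [a]).getLast h).IsSgn := by
    intro h
    rw [List.getLast_append_singleton]
    exact ha
  by_cases hc1 : c + 1 = 0
  · -- flush
    have hrun : (mach K).Run (.main c b s, st) [a] (.flush (badd b x), st) := by
      rw [hst₀]
      refine DetM.Run.read hf ?_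
      rw [hfa]
      unfold nextSgn
      rw [if_pos hc1]
      exact DetM.Run.refl _
    have hrun2 : (mach K).Run (.flush (badd b x), st) []
        (.main 0 (bzero K) true, cst (v + (badd b x).1)) := by
      rw [hst]
      exact run_flush K G hG v (badd b x)
    obtain ⟨g', R', hcst', hg'⟩ := inv_cst_head (v + (badd b x).1)
    refine ⟨0, bzero K, true, cst (v + (badd b x).1), ?_, ⟨?_, ?_, ?_, ?_, ?_, ?_, ?_⟩, ?_⟩
    · simpa using inv_trans hrun hrun2
    · rw [hns]
      push_cast
      rw [← add_assoc, ← H.hc, hc1]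
    · rw [hns]
      simp
    · simp [bzero]
    · refine ⟨[], v + (badd b x).1, fun g hg => absurd hg List.not_mem_nil, by simp, ?_⟩
      rw [hbx, hcp, ← hv]
      simp [bzero]
      ring
    · intro h
      exact absurd h (by simp)
    · intro _ _
      exact ⟨[], v + (badd b x).1, by simp [sbits]⟩
    · intro _ h
      exact absurd rfl h
    · exact ⟨u ++ [a], [], g', R', hmain, hlast, by simp [bits], by simp [sbits, hcst'], hg'⟩
  · -- push `sep`
    obtain ⟨hval, -⟩ := inv_val_succ hc1
    have hrun : (mach K).Run (.main c b s, st) [a] (.main (c + 1) (badd b x) true, .sep :: st) := by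
      rw [hst₀]
      refine DetM.Run.read hf ?_
      rw [hfa]
      unfold nextSgn
      rw [if_neg hc1]
      exact DetM.Run.refl _
    refine ⟨c + 1, badd b x, true, .sep :: st, hrun, ⟨?_, ?_, ?_, ?_, ?_, ?_, ?_⟩, ?_⟩
    · rw [hns]
      push_cast
      rw [← add_assoc, ← H.hc]
    · rw [hns]
      simp
    · rw [hbx, hval]
      have := H.hb
      omega
    · refine ⟨.sep :: G, v, ?_, by rw [hst]; rfl, ?_⟩
      · intro g hg
        rcases List.mem_cons.1 hg with rfl | hg
        · trivial
        · exact hG g hg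
      · rw [hbx, hcp, ← hv]
        ring
    · intro h
      exact absurd h (by simp)
    · intro _ h
      exact absurd h hc1
    · intro _ _
      obtain ⟨v0, w, g', R', h1, h2, h3, h4, h5⟩ := ht
      exact ⟨v0, w, [], a, g' :: R', h1, h2, ha, by simp [h3, bits], by rw [h4]; rfl, g', R',
        rfl, h5⟩
    · exact ⟨u ++ [a], [], .sep, st, hmain, hlast, by simp [bits], rfl, fun y => by simp⟩

private theorem inv_bit {K : ℕ} [NeZero K] (i : ZMod K) {u : List Ltr}
    {c : ZMod K} {b : Buf K} {s : Bool} {st : List SG} (H : Inv i u c b s st) (ht : InvTop u st)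
    (x : Bool) :
    ∃ c' b' s' st', (mach K).Run (.main c b s, st) [.bit x] (.main c' b' s', st') ∧
      Inv i (u ++ [.bit x]) c' b' s' st' ∧ InvTop (u ++ [.bit x]) st' := by
  obtain ⟨G, v, hG, hst, hv⟩ := H.shape
  obtain ⟨gc, Rc, hcst, hgc⟩ := inv_cst_head v
  have hne : ∃ g st₀, st = g :: st₀ := by
    rw [hst, hcst]
    cases G with
    | nil => exact ⟨gc, Rc, rfl⟩
    | cons g G => exact ⟨g, G ++ gc :: Rc, rfl⟩
  obtain ⟨g, st₀, hst₀⟩ := hne
  have hp : (u ++ [Ltr.bit x]).count Ltr.plus = u.count Ltr.plus := by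
    rw [List.count_append]
    simp
  have hm : (u ++ [Ltr.bit x]).count Ltr.minus = u.count Ltr.minus := by
    rw [List.count_append]
    simp
  have hns : nsgn (u ++ [Ltr.bit x]) = nsgn u := by
    unfold nsgn
    rw [hp, hm]
  have hrun : (mach K).Run (.main c b s, st) [.bit x] (.main c b s, .bit x :: st) := by
    rw [hst₀]
    refine DetM.Run.read (f := fun a => match a with
      | .bit x => (.main c b s, [.bit x, g])
      | .plus => nextSgn c b 1 g
      | .minus => nextSgn c b (-1) g
      | .ask => (.popq s, [g])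
      | .fin => (.zer b, [g])) rfl ?_
    exact DetM.Run.refl _
  refine ⟨c, b, s, .bit x :: st, hrun, ⟨?_, ?_, H.hb, ?_, ?_, ?_, ?_⟩, ?_⟩
  · rw [hns]
    exact H.hc
  · rw [hns]
    exact H.hs
  · refine ⟨.bit x :: G, v, ?_, by rw [hst]; rfl, by rw [hp, hm]; exact hv⟩
    intro g hg
    rcases List.mem_cons.1 hg with rfl | hg
    · trivial
    · exact hG g hg
  · intro h
    obtain ⟨w', h1, v', h2⟩ := H.cur0 h
    exact ⟨w' ++ [x], by rw [inv_bits_snoc, h1], v', by rw [inv_sbits_snoc, h2]; rfl⟩
  · intro h h'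
    obtain ⟨w', v', h2⟩ := H.cur1 h h'
    exact ⟨w' ++ [x], v', by rw [inv_sbits_snoc, h2]; rfl⟩
  · intro h h'
    obtain ⟨v0, w, w', y, R, h1, h2, h3, h4, h5, h6⟩ := H.cur2 h h'
    exact ⟨v0, w, w' ++ [x], y, R, h1, h2, h3, by rw [inv_bits_snoc, h4]; simp,
      by rw [inv_sbits_snoc, h5]; rfl, h6⟩
  · obtain ⟨v0, w, g', R', h1, h2, h3, h4, h5⟩ := ht
    exact ⟨v0, w ++ [x], g', R', h1, h2, by rw [inv_bits_snoc, h3]; simp,
      by rw [inv_sbits_snoc, h4]; rfl, h5⟩

theorem exists_inv (K : ℕ) [NeZero K] (i : ZMod K) (u : List Ltr) (hu : ∀ a ∈ u, a.Main) :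
    ∃ c b s st, (mach K).Run (.main i (bzero K) false, [SG.bot]) u (.main c b s, st) ∧
      Inv i u c b s st := by
  suffices h : ∃ c b s st, (mach K).Run (.main i (bzero K) false, [SG.bot]) u (.main c b s, st) ∧
      Inv i u c b s st ∧ InvTop u st by
    obtain ⟨c, b, s, st, h1, h2, -⟩ := h
    exact ⟨c, b, s, st, h1, h2⟩
  induction u using List.reverseRecOn with
  | nil =>
    refine ⟨i, bzero K, false, [SG.bot], DetM.Run.refl _, ⟨?_, ?_, ?_, ?_, ?_, ?_, ?_⟩, ?_⟩
    · simp [nsgn]
    · simp [nsgn]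
    · simp [bzero]
    · exact ⟨[], 0, fun g hg => absurd hg List.not_mem_nil, rfl, by simp [bzero]⟩
    · intro _
      exact ⟨[], by simp [bits], 0, rfl⟩
    · intro h
      exact absurd h (by simp)
    · intro h
      exact absurd h (by simp)
    · exact ⟨[], [], .bot, [], fun a ha => absurd ha List.not_mem_nil, fun h => absurd rfl h,
        by simp [bits], rfl, fun y => by simp⟩
  | append_singleton u a ih =>
    have hu' : ∀ a ∈ u, a.Main := fun b hb => hu b (List.mem_append_left _ hb)
    have ha : a.Main := hu a (List.mem_append_right _ (List.mem_singleton_self a))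
    obtain ⟨c, b, s, st, hrun, H, ht⟩ := ih hu'
    have key : ∃ c' b' s' st', (mach K).Run (.main c b s, st) [a] (.main c' b' s', st') ∧
        Inv i (u ++ [a]) c' b' s' st' ∧ InvTop (u ++ [a]) st' := by
      cases a with
      | bit x => exact inv_bit i H ht x
      | plus =>
        refine inv_sgn i hu' H ht (a := Ltr.plus) (x := 1) trivial rfl ?_ ?_ ?_
        · rw [List.count_append, List.count_append]
          simp
          ring
        · unfold nsgn
          rw [List.count_append, List.count_append]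
          simp
          ring
        · intro g
          exact ⟨_, rfl, rfl⟩
      | minus =>
        refine inv_sgn i hu' H ht (a := Ltr.minus) (x := -1) trivial rfl ?_ ?_ ?_
        · rw [List.count_append, List.count_append]
          simp
          ring
        · unfold nsgn
          rw [List.count_append, List.count_append]
          simp
          ring
        · intro g
          exact ⟨_, rfl, rfl⟩
      | ask => exact absurd ha (by simp [Ltr.Main])
      | fin => exact absurd ha (by simp [Ltr.Main])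
    obtain ⟨c', b', s', st', hrun', H', ht'⟩ := key
    exact ⟨c', b', s', st', inv_trans hrun hrun', H', ht'⟩

end LVP
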