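import Pool.Agent.H82.LVP.Core

/-!
# Membership in the language
-/

namespace LVP

theorem bits_main (w : List Bool) : ∀ a ∈ bits w, a.Main := by
  intro a ha
  simp only [bits, List.mem_map] at ha
  obtain ⟨b, -, rfl⟩ := ha
  trivial

theorem bits_inj {w w' : List Bool} (h : bits w = bits w') : w = w' := by
  have : Function.Injective Ltr.bit := fun a b h => by simpa using h
  exact List.map_injective_iff.2 this h

theorem isSgn_main {x : Ltr} (h : x.IsSgn) : x.Main := by
  cases x <;> simp_all [Ltr.IsSgn, Ltr.Main]

/-- Words of main letters followed by an end marker are parsed uniquely. -/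
theorem main_parse {u u' z z' : List Ltr} {a a' : Ltr} (hu : ∀ a ∈ u, a.Main)
    (hu' : ∀ a ∈ u', a.Main) (ha : ¬ a.Main) (ha' : ¬ a'.Main)
    (h : u ++ a :: z = u' ++ a' :: z') : u = u' ∧ a = a' ∧ z = z' := by
  induction u generalizing u' with
  | nil =>
    cases u' with
    | nil => simpa using h
    | cons b u' =>
      simp only [List.nil_append, List.cons_append, List.cons.injEq] at h
      exact absurd (h.1 ▸ hu' b (by simp)) ha
  | cons b u ih =>
    cases u' with
    | nil =>
      simp only [List.nil_append, List.cons_append, List.cons.injEq] at h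
      exact absurd (h.1 ▸ hu b (by simp)) ha'
    | cons b' u' =>
      simp only [List.cons_append, List.cons.injEq] at h
      obtain ⟨rfl, h⟩ := h
      obtain ⟨rfl, h2⟩ := ih (fun a ha => hu a (by simp [ha])) (fun a ha => hu' a (by simp [ha])) h
      exact ⟨rfl, h2⟩

/-- The last sign and the last block are determined. -/
theorem last_block {u u' : List Ltr} {w w' : List Bool} {x x' : Ltr} (hx : x.IsSgn)
    (hx' : x'.IsSgn) (h : u ++ [x] ++ bits w = u' ++ [x'] ++ bits w') :
    u = u' ∧ x = x' ∧ w = w' := by
  have h1 := congrArg List.reverse h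
  simp only [List.reverse_append, bits, ← List.map_reverse, List.reverse_cons,
    List.append_assoc, List.singleton_append] at h1
  have key : ∀ (a b : List Bool) (r s : List Ltr), a.map Ltr.bit ++ x :: r = b.map Ltr.bit ++ x' :: s →
      a = b ∧ x = x' ∧ r = s := by
    intro a
    induction a with
    | nil =>
      intro b r s h
      cases b with
      | nil => simpa using h
      | cons c b =>
        simp only [List.map_nil, List.nil_append, List.map_cons, List.cons_append,
          List.cons.injEq] at h
        rw [h.1] at hx
        exact absurd hx (by simp [Ltr.IsSgn])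
    | cons c a ih =>
      intro b r s h
      cases b with
      | nil =>
        simp only [List.map_nil, List.nil_append, List.map_cons, List.cons_append,
          List.cons.injEq] at h
        rw [← h.1] at hx'
        exact absurd hx' (by simp [Ltr.IsSgn])
      | cons d b =>
        simp only [List.map_cons, List.cons_append, List.cons.injEq, Ltr.bit.injEq] at h
        obtain ⟨rfl, h⟩ := h
        obtain ⟨rfl, h2⟩ := ih b r s h
        exact ⟨rfl, h2⟩
  obtain ⟨e1, e2, e3⟩ := key _ _ _ _ h1
  refine ⟨List.reverse_injective e3, e2, List.reverse_injective e1⟩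

theorem mem_fin {u : List Ltr} (hu : ∀ a ∈ u, a.Main) :
    u ++ [Ltr.fin] ∈ Lang ↔ u.count Ltr.plus = u.count Ltr.minus := by
  constructor
  · rintro (⟨u', hu', hc, h⟩ | ⟨v, w, w', x, hv, -, hx, h⟩)
    · obtain ⟨rfl, -⟩ := main_parse hu hu' (by simp [Ltr.Main]) (by simp [Ltr.Main]) h
      exact hc
    · exfalso
      rw [List.append_assoc _ [Ltr.ask]] at h
      have := main_parse hu (u' := v ++ bits w ++ [x] ++ bits w') ?_ (by simp [Ltr.Main])
        (by simp [Ltr.Main]) h
      · simp at this
      · intro a ha
        simp only [List.mem_append, List.mem_singleton] at ha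
        rcases ha with ((ha | ha) | rfl) | ha
        · exact hv a ha
        · exact bits_main _ a ha
        · exact isSgn_main hx
        · exact bits_main _ a ha
  · intro h
    exact Or.inl ⟨u, hu, h, rfl⟩

theorem mem_ask {v : List Ltr} {w w' : List Bool} {x : Ltr} (hv : Blocky v) (hx : x.IsSgn)
    {z : List Ltr} :
    v ++ bits w ++ [x] ++ bits w' ++ [Ltr.ask] ++ z ∈ Lang ↔ z = bits w.reverse := by
  have hmain : ∀ {v : List Ltr} {w w' : List Bool} {x : Ltr}, (∀ a ∈ v, a.Main) → x.IsSgn →
      ∀ a ∈ v ++ bits w ++ [x] ++ bits w', a.Main := by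
    intro v w w' x hv hx a ha
    simp only [List.mem_append, List.mem_singleton] at ha
    rcases ha with ((ha | ha) | rfl) | ha
    · exact hv a ha
    · exact bits_main _ a ha
    · exact isSgn_main hx
    · exact bits_main _ a ha
  constructor
  · rintro (⟨u', hu', hc, h⟩ | ⟨v', w1, w1', x', hv', hv'', hx', h⟩)
    · exfalso
      rw [List.append_assoc _ [Ltr.ask]] at h
      have := main_parse (hmain hv.1 hx) hu' (by simp [Ltr.Main]) (by simp [Ltr.Main]) h
      simp at this
    · rw [List.append_assoc _ [Ltr.ask], List.append_assoc _ [Ltr.ask]] at h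
      obtain ⟨h1, -, h2⟩ := main_parse (hmain hv.1 hx) (hmain hv' hx') (by simp [Ltr.Main])
        (by simp [Ltr.Main]) h
      obtain ⟨h3, rfl, rfl⟩ := last_block hx hx' h1
      suffices w = w1 by
        rw [this]
        exact h2
      by_cases hn : v = []
      · by_cases hn' : v' = []
        · subst hn; subst hn'
          exact bits_inj (by simpa using h3)
        · exfalso
          subst hn
          obtain ⟨v2, y, rfl⟩ : ∃ v2 y, v' = v2 ++ [y] :=
            ⟨v'.dropLast, v'.getLast hn', (List.dropLast_append_getLast hn').symm⟩
          have hy : y.IsSgn := by simpa using hv'' hn'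
          have : y ∈ bits w := by
            have : y ∈ [] ++ bits w := by rw [h3]; simp
            simpa using this
          simp only [bits, List.mem_map] at this
          obtain ⟨b, -, rfl⟩ := this
          exact hy
      · obtain ⟨v2, y, rfl⟩ : ∃ v2 y, v = v2 ++ [y] :=
          ⟨v.dropLast, v.getLast hn, (List.dropLast_append_getLast hn).symm⟩
        have hy : y.IsSgn := by simpa using hv.2 hn
        by_cases hn' : v' = []
        · exfalso
          subst hn'
          have : y ∈ bits w1 := by
            have : y ∈ [] ++ bits w1 := by rw [← h3]; simp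
            simpa using this
          simp only [bits, List.mem_map] at this
          obtain ⟨b, -, rfl⟩ := this
          exact hy
        · obtain ⟨v3, y', rfl⟩ : ∃ v3 y', v' = v3 ++ [y'] :=
            ⟨v'.dropLast, v'.getLast hn', (List.dropLast_append_getLast hn').symm⟩
          have hy' : y'.IsSgn := by simpa using hv'' hn'
          exact (last_block hy hy' h3).2.2
  · rintro rfl
    exact Or.inr ⟨v, w, w', x, hv.1, hv.2, hx, rfl⟩

end LVP
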