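import Pool.Agent.H82.LVP.Gen

/-!
# The concrete deterministic machines

The stack holds, from top to bottom: the current block of bits, and then older blocks, separated by
`sep`, and at the bottom the counter: `cst v` for an integer `v`. The sign updates are buffered in
the state `main c b s` (`c` counts the signs modulo `K`, `b` is the buffer, `s` tells whether some
sign has been read); when `c` becomes `0`, the blocks are popped and the buffer is added to the
counter (`flush`).
-/

namespace LVP

/-- Stack symbols. -/
inductive SG
  | bot
  | bit (b : Bool)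
  | sep
  | cnt (b : Bool)
  deriving DecidableEq

/-- Buffers. -/
abbrev Buf (K : ℕ) := Set.Icc (-(K : ℤ)) (K : ℤ)

/-- Truncated addition. -/
def badd {K : ℕ} (b : Buf K) (x : ℤ) : Buf K :=
  Set.projIcc (-(K : ℤ)) (K : ℤ) (by omega) (b.1 + x)

/-- The empty buffer. -/
def bzero (K : ℕ) : Buf K := ⟨0, by constructor <;> omega⟩

/-- States. -/
inductive SQ (K : ℕ)
  | main (c : ZMod K) (b : Buf K) (s : Bool)
  | flush (b : Buf K)
  | popq (s : Bool)
  | cmp
  | cmpr
  | okk
  | dead
  | lost
  | zer (b : Buf K)

/-- The move on a sign. -/
def nextSgn {K : ℕ} (c : ZMod K) (b : Buf K) (x : ℤ) (g : SG) : SQ K × List SG :=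
  if c + 1 = 0 then (.flush (badd b x), [g]) else (.main (c + 1) (badd b x) true, [.sep, g])

/-- The action function. -/
def mact (K : ℕ) : SQ K → SG → (SQ K × List SG) ⊕ (Ltr → SQ K × List SG)
  | .main c b s, g => .inr fun a => match a with
    | .bit x => (.main c b s, [.bit x, g])
    | .plus => nextSgn c b 1 g
    | .minus => nextSgn c b (-1) g
    | .ask => (.popq s, [g])
    | .fin => (.zer b, [g])
  | .flush _, .bit _ => .inl (.flush ‹_›, [])
  | .flush _, .sep => .inl (.flush ‹_›, [])
  | .flush b, .bot => .inl <|
      if b.1 = 0 then (.main 0 (bzero K) true, [.bot])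
      else if 0 < b.1 then (.flush (badd b (-1)), [.cnt true, .bot])
      else (.flush (badd b 1), [.cnt false, .bot])
  | .flush b, .cnt x => .inl <|
      if b.1 = 0 then (.main 0 (bzero K) true, [.cnt x])
      else if 0 < b.1 then (if x then (.flush (badd b (-1)), [.cnt true, .cnt true])
        else (.flush (badd b (-1)), []))
      else (if x then (.flush (badd b 1), []) else (.flush (badd b 1), [.cnt false, .cnt false]))
  | .popq s, .bit _ => .inl (.popq s, [])
  | .popq _, .sep => .inl (.cmp, [])
  | .popq s, .bot => .inl (if s then .lost else .dead, [.bot])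
  | .popq s, .cnt x => .inl (if s then .lost else .dead, [.cnt x])
  | .cmp, .bit x => .inl (.cmpr, [.bit x])
  | .cmp, .sep => .inl (.okk, [.sep])
  | .cmp, .bot => .inl (.okk, [.bot])
  | .cmp, .cnt x => .inl (.okk, [.cnt x])
  | .cmpr, g => .inr fun a => match a, g with
    | .bit x, .bit y => if x = y then (.cmp, []) else (.dead, [g])
    | _, _ => (.dead, [g])
  | .okk, g => .inr fun _ => (.dead, [g])
  | .dead, g => .inr fun _ => (.dead, [g])
  | .lost, g => .inr fun _ => (.lost, [g])
  | .zer b, .bit _ => .inl (.zer b, [])
  | .zer b, .sep => .inl (.zer b, [])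
  | .zer b, .bot => .inl (if b.1 = 0 then .okk else .dead, [.bot])
  | .zer b, .cnt x => .inl <|
      if x then (if b.1 < 0 then (.zer (badd b 1), []) else (.dead, [.cnt x]))
      else (if 0 < b.1 then (.zer (badd b (-1)), []) else (.dead, [.cnt x]))

/-- The kinds of the states. -/
def mkind {K : ℕ} : SQ K → Kind
  | .main _ _ _ => .rej
  | .flush _ => .neu
  | .popq _ => .neu
  | .cmp => .neu
  | .cmpr => .rej
  | .okk => .acc
  | .dead => .rej
  | .lost => .neu
  | .zer _ => .neu

instance : Finite SG := by
  let f : SG → Option (Option (Bool × Bool)) := fun g => match g with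
    | .bot => none
    | .sep => some none
    | .bit b => some (some (true, b))
    | .cnt b => some (some (false, b))
  refine Finite.of_injective f ?_
  intro a b h
  cases a <;> cases b <;> simp_all [f]

instance (K : ℕ) [NeZero K] : Finite (SQ K) := by
  let f : SQ K → (ZMod K × Buf K × Bool) ⊕ (Buf K × Bool) ⊕ Bool ⊕ (Fin 5) := fun q => match q with
    | .main c b s => .inl (c, b, s)
    | .flush b => .inr (.inl (b, true))
    | .zer b => .inr (.inl (b, false))
    | .popq s => .inr (.inr (.inl s))
    | .cmp => .inr (.inr (.inr 0))
    | .cmpr => .inr (.inr (.inr 1))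
    | .okk => .inr (.inr (.inr 2))
    | .dead => .inr (.inr (.inr 3))
    | .lost => .inr (.inr (.inr 4))
  refine Finite.of_injective f ?_
  intro a b h
  cases a <;> cases b <;> simp_all [f]

/-- The machine. -/
def mach (K : ℕ) [NeZero K] : DetM Ltr where
  Q := SQ K
  G := SG
  finQ := inferInstance
  finG := inferInstance
  act := mact K
  kind := mkind
  acc_closed := by
    intro q g m h hk
    cases q <;> simp_all [mkind, mact]
  rej_closed := by
    intro q g m h hk
    cases q <;> simp_all [mkind, mact]

/-- The counter with value `v` at the bottom of the stack. -/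
def cst (v : ℤ) : List SG := List.replicate v.natAbs (.cnt (decide (0 < v))) ++ [.bot]

/-- Symbols of blocks. -/
def SG.Blk : SG → Prop
  | .bit _ => True
  | .sep => True
  | _ => False

end LVP
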