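import Pool.Agent.H82.LVP.Stair

/-!
# The language is not deterministic context-free

Proof. Choose `n` with `4 |Q| (n+1) < 2^n`. By `stair` and the pigeonhole principle there is
`(p, g)` with `Surv M p g` such that the set `T` of all `t` for which there are `v` (main letters,
no `minus`, `v.count plus = t`) and `α` with `Run ini v (p, g :: α)` is infinite. For `t ∈ T` choose
`v_t, α_t`, and `y_t` (main letters, `count minus = count plus + t`), `(p_t, β_t)` with
`Run (p, [g]) y_t (p_t, β_t)`. Then `v_t y_t fin` is in the language (`mem_fin`), so it is accepted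
by a run which passes through `(p_t, β_t ++ α_t)` (`Run.lift`, `Run.conf`):
`Run (p_t, β_t ++ α_t) [fin] c_t`, `c_t.1 ∈ F`. Apply `Run.touch`.
If `c_t = (f, β' ++ α_t)` and `Run (p_t, β_t) [fin] (f, β')` for some `t ∈ T`, then for
`t' ∈ T`, `t' ≠ t`, the word `v_t' y_t fin` is accepted, contradiction with `mem_fin`.
Otherwise for every `t ∈ T`: `[fin] = z1 ++ z2`, `Run (p_t, β_t) z1 (e_t, [])`,
`Run (e_t, α_t) z2 c_t`. By the pigeonhole principle (`(e_t, z1 = [])` in a finite set) there are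
`t ≠ t'` with the same `e` and the same `z1`. Then `v_t y_t' fin` is accepted:
`Run ini (v_t y_t' z1) (e, α_t)` and `Run (e, α_t) z2 c_t`; contradiction with `mem_fin`.
-/

namespace LVP

theorem sq_le_two_pow (n : ℕ) : (n + 6 + 1) ^ 2 ≤ 2 ^ (n + 6) := by
  induction n with
  | zero => norm_num
  | succ n ih =>
    have : 2 ^ (n + 1 + 6) = 2 * 2 ^ (n + 6) := by ring
    rw [this]
    calc (n + 1 + 6 + 1) ^ 2 ≤ 2 * (n + 6 + 1) ^ 2 := by ring_nf; nlinarith
      _ ≤ 2 * 2 ^ (n + 6) := by gcongr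

theorem exists_block_length (N : ℕ) : ∃ n : ℕ, 4 * N * (n + 1) < 2 ^ n := by
  refine ⟨4 * N + 6, lt_of_lt_of_le ?_ (sq_le_two_pow (4 * N))⟩
  nlinarith

open DPDA in
/-- Words `v y fin` accepted by a run which is known in three parts. -/
theorem count_eq_of_run {M : DPDA Ltr} (hM : ∀ w, w ∈ Lang ↔ M.Accepts w) {v y : List Ltr}
    (hv : ∀ a ∈ v, a.Main) (hy : ∀ a ∈ y, a.Main) (hv0 : v.count Ltr.minus = 0) {t : ℕ}
    (ht : y.count Ltr.minus = y.count Ltr.plus + t) {c c' : M.Q × List M.G}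
    (h1 : M.Run M.ini (v ++ y) c) (h2 : M.Run c [Ltr.fin] c') (hF : c'.1 ∈ M.F) :
    v.count Ltr.plus = t := by
  have hacc : M.Accepts ((v ++ y) ++ [Ltr.fin]) := ⟨c', h1.trans h2, hF⟩
  have hmem := (hM _).2 hacc
  have hmain : ∀ a ∈ v ++ y, a.Main := by
    intro a ha
    rcases List.mem_append.1 ha with h | h
    · exact hv a h
    · exact hy a h
  rw [mem_fin hmain, List.count_append, List.count_append] at hmem
  omega

theorem not_isDCF : ¬ IsDCF Lang := by
  rintro ⟨M, hM⟩
  have := M.finQ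
  have := M.finG
  obtain ⟨n, hn⟩ := exists_block_length (Nat.card M.Q)
  choose P G Al V hS hmain hminus hplus hrun using stair hM hn
  obtain ⟨⟨p, g⟩, hinf⟩ := Finite.exists_infinite_fiber (fun k : ℕ => (P k, G k))
  have hpg : ∀ k ∈ (fun k : ℕ => (P k, G k)) ⁻¹' {(p, g)}, P k = p ∧ G k = g := by
    intro k hk
    simpa using hk
  obtain ⟨k0, hk0⟩ : ((fun k : ℕ => (P k, G k)) ⁻¹' {(p, g)}).Nonempty :=
    (Set.infinite_coe_iff.1 hinf).nonempty
  have hSurv : Surv M p g := by
    obtain ⟨e1, e2⟩ := hpg k0 hk0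
    have := hS k0
    rwa [e1, e2] at this
  let T : Set ℕ := {t | ∃ (v : List Ltr) (α : List M.G), (∀ a ∈ v, a.Main) ∧
    v.count Ltr.minus = 0 ∧ v.count Ltr.plus = t ∧ M.Run M.ini v (p, g :: α)}
  have hT : T.Infinite := by
    apply Set.infinite_of_forall_exists_gt
    intro N
    obtain ⟨k, hk, hkN⟩ := (Set.infinite_coe_iff.1 hinf).exists_gt N
    obtain ⟨e1, e2⟩ := hpg k hk
    refine ⟨(V k).count Ltr.plus, ⟨V k, Al k, hmain k, hminus k, rfl, ?_⟩, hkN.trans_le (hplus k)⟩
    have := hrun k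
    rwa [e1, e2] at this
  have hTi : Infinite T := hT.to_subtype
  -- data for `t ∈ T`
  have hdata : ∀ t : T, ∃ (v : List Ltr) (α : List M.G) (y : List Ltr) (q : M.Q) (β : List M.G)
      (c : M.Q × List M.G), (∀ a ∈ v, a.Main) ∧ v.count Ltr.minus = 0 ∧
      v.count Ltr.plus = t.1 ∧ M.Run M.ini v (p, g :: α) ∧ (∀ a ∈ y, a.Main) ∧
      y.count Ltr.minus = y.count Ltr.plus + t.1 ∧ M.Run (p, [g]) y (q, β) ∧
      M.Run (q, β ++ α) [Ltr.fin] c ∧ c.1 ∈ M.F := by
    rintro ⟨t, v, α, hv, hv0, hvt, hr⟩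
    obtain ⟨y, hy, hyt, ⟨q, β⟩, hyr⟩ := hSurv t
    have hrun2 : M.Run M.ini (v ++ y) (q, β ++ α) := hr.trans (hyr.lift' α)
    have hmain2 : ∀ a ∈ v ++ y, a.Main := by
      intro a ha
      rcases List.mem_append.1 ha with h | h
      · exact hv a h
      · exact hy a h
    have hmem : (v ++ y) ++ [Ltr.fin] ∈ Lang := by
      rw [mem_fin hmain2, List.count_append, List.count_append]
      omega
    obtain ⟨c, hc, hF⟩ := (hM _).1 hmem
    exact ⟨v, α, y, q, β, c, hv, hv0, hvt, hr, hy, hyt, hyr, hrun2.conf hc (by simp), hF⟩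
  choose v α y q β c hv hv0 hvt hr hy hyt hyr hfin hF using hdata
  -- mixed runs
  have hmix : ∀ s t : T, M.Run M.ini (v s ++ y t) (q t, β t ++ α s) := fun s t =>
    (hr s).trans ((hyr t).lift' (α s))
  have hcontra : ∀ s t : T, s ≠ t → ∀ c' : M.Q × List M.G,
      M.Run (q t, β t ++ α s) [Ltr.fin] c' → c'.1 ∈ M.F → False := by
    intro s t hst c' h1 h2
    have := count_eq_of_run hM (hv s) (hy t) (hv0 s) (hyt t) (hmix s t) h1 h2
    rw [hvt s] at this
    exact hst (Subtype.ext this)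
  by_cases hA : ∃ (t : T) (q' : M.Q) (β' : List M.G), c t = (q', β' ++ α t) ∧
      M.Run (q t, β t) [Ltr.fin] (q', β')
  · obtain ⟨t, q', β', e, r⟩ := hA
    obtain ⟨s, hs⟩ := exists_ne t
    have hF' := hF t
    rw [e] at hF'
    exact hcontra s t hs _ (r.lift' (α s)) hF'
  · have hB : ∀ t : T, ∃ (z1 z2 : List Ltr) (e : M.Q), [Ltr.fin] = z1 ++ z2 ∧
        M.Run (q t, β t) z1 (e, []) ∧ M.Run (e, α t) z2 (c t) := by
      intro t
      rcases (hfin t).touch with ⟨q', β', e, r⟩ | h
      · exact absurd ⟨t, q', β', e, r⟩ hA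
      · exact h
    choose z1 z2 e he h1 h2 using hB
    obtain ⟨s, t, hst, hee⟩ := Finite.exists_ne_map_eq_of_infinite
      (fun t : T => (e t, decide (z1 t = [])))
    simp only [Prod.mk.injEq] at hee
    obtain ⟨hee, hz⟩ := hee
    have hz12 : z1 s = z1 t ∧ z2 s = z2 t := by
      have hs := he s
      have ht := he t
      cases hzs : z1 s with
      | nil =>
        have hzt : z1 t = [] := by simpa [hzs] using hz.symm
        rw [hzs] at hs
        rw [hzt] at ht
        exact ⟨hzt.symm, by simpa using hs.symm.trans ht⟩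
      | cons a l =>
        cases hzt : z1 t with
        | nil =>
          simp [hzs, hzt] at hz
        | cons a' l' =>
          rw [hzs] at hs
          rw [hzt] at ht
          simp only [List.cons_append, List.cons.injEq, List.nil_eq, List.append_eq_nil_iff] at hs ht
          obtain ⟨rfl, rfl, hs2⟩ := hs
          obtain ⟨rfl, rfl, ht2⟩ := ht
          exact ⟨rfl, by rw [hs2, ht2]⟩
    -- the word `v s ++ y t ++ fin`
    apply hcontra s t hst (c s) _ (hF s)
    have r1 : M.Run (q t, β t ++ α s) (z1 t) (e t, [] ++ α s) := (h1 t).lift' (α s)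
    have r2 : M.Run (e s, α s) (z2 s) (c s) := h2 s
    rw [hee, hz12.2] at r2
    rw [he t]
    exact r1.trans r2

end LVP
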