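import Pool.Agent.H82.LVP.Defs

/-!
# Basic facts on runs of deterministic pushdown automata
-/

namespace LVP.DPDA

variable {A : Type} {M : DPDA A}

theorem Run.trans {c c' c'' : M.Q × List M.G} {y z : List A} (h : M.Run c y c')
    (h' : M.Run c' z c'') : M.Run c (y ++ z) c'' := by
  induction h with
  | refl c => simpa using h'
  | eps hδ _ ih => exact Run.eps hδ (ih h')
  | read hδ _ ih => exact Run.read hδ (ih h')

theorem Run.lift {c c' : M.Q × List M.G} {y : List A} (α : List M.G) (h : M.Run c y c') :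
    M.Run (c.1, c.2 ++ α) y (c'.1, c'.2 ++ α) := by
  induction h with
  | refl c => exact Run.refl _
  | eps hδ _ ih =>
    refine Run.eps hδ ?_
    simpa using ih
  | read hδ _ ih =>
    refine Run.read hδ ?_
    simpa using ih

theorem Run.lift' {q q' : M.Q} {β β' : List M.G} {y : List A} (α : List M.G)
    (h : M.Run (q, β) y (q', β')) : M.Run (q, β ++ α) y (q', β' ++ α) := by
  simpa using h.lift α

/-- A run reading `y ++ z` can be split. -/
theorem Run.split {c c'' : M.Q × List M.G} {y z : List A} (h : M.Run c (y ++ z) c'') :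
    ∃ c', M.Run c y c' ∧ M.Run c' z c'' := by
  generalize hw : y ++ z = w at h
  induction h generalizing y with
  | refl c =>
    obtain ⟨rfl, rfl⟩ := List.append_eq_nil_iff.1 hw
    exact ⟨c, Run.refl _, Run.refl _⟩
  | eps hδ _ ih =>
    obtain ⟨c', h1, h2⟩ := ih hw
    exact ⟨c', Run.eps hδ h1, h2⟩
  | @read q g a q' l s y' c hδ h ih =>
    cases y with
    | nil =>
      simp only [List.nil_append] at hw
      subst hw
      exact ⟨_, Run.refl _, Run.read hδ h⟩
    | cons b y =>
      simp only [List.cons_append, List.cons.injEq] at hw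
      obtain ⟨rfl, hw⟩ := hw
      obtain ⟨c', h1, h2⟩ := ih hw
      exact ⟨c', Run.read hδ h1, h2⟩

/-- Determinism: if the machine can read `y` and arrive at `c1`, then every run which reads
`y ++ z` with `z ≠ []` passes through `c1`. -/
theorem Run.conf {c c1 c2 : M.Q × List M.G} {y z : List A} (h1 : M.Run c y c1)
    (h2 : M.Run c (y ++ z) c2) (hz : z ≠ []) : M.Run c1 z c2 := by
  induction h1 with
  | refl c => simpa using h2
  | @eps q g q' l s y c hδ h ih =>
    have : y ++ z ≠ [] := by simp [hz]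
    generalize hw : y ++ z = w at h2 this
    cases h2 with
    | refl => exact absurd rfl this
    | eps hδ' h' =>
      rw [hδ] at hδ'
      simp only [Option.some.injEq, Prod.mk.injEq] at hδ'
      obtain ⟨rfl, rfl⟩ := hδ'
      exact ih (hw ▸ h')
    | @read _ _ a _ _ _ _ _ hδ' h' =>
      have := M.det q g a (by simp [hδ])
      rw [this] at hδ'
      cases hδ'
  | @read q g a q' l s y c hδ h ih =>
    cases h2 with
    | eps hδ' h' =>
      have := M.det q g a (by simp [hδ'])
      rw [this] at hδ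
      cases hδ
    | read hδ' h' =>
      rw [hδ] at hδ'
      simp only [Option.some.injEq, Prod.mk.injEq] at hδ'
      obtain ⟨rfl, rfl⟩ := hδ'
      exact ih h'

/-- Either a run never touches the lower part `α` of the stack, or there is a moment at which the
stack is `α`. -/
theorem Run.touch {q : M.Q} {β α : List M.G} {y : List A} {c' : M.Q × List M.G}
    (h : M.Run (q, β ++ α) y c') :
    (∃ q' β', c' = (q', β' ++ α) ∧ M.Run (q, β) y (q', β')) ∨
    (∃ y1 y2 p, y = y1 ++ y2 ∧ M.Run (q, β) y1 (p, []) ∧ M.Run (p, α) y2 c') := by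
  generalize hc : (q, β ++ α) = c at h
  induction h generalizing q β with
  | refl c =>
    subst hc
    exact Or.inl ⟨q, β, rfl, Run.refl _⟩
  | @eps q₁ g q' l s y c hδ h ih =>
    cases β with
    | nil =>
      right
      refine ⟨[], y, q, rfl, Run.refl _, ?_⟩
      simp only [List.nil_append] at hc
      rw [hc]
      exact Run.eps hδ h
    | cons b β =>
      simp only [List.cons_append, Prod.mk.injEq, List.cons.injEq] at hc
      obtain ⟨rfl, rfl, rfl⟩ := hc
      rcases @ih q' (l ++ β) (by simp) with ⟨q2, β2, e, r⟩ | ⟨y1, y2, p, e, r1, r2⟩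
      · exact Or.inl ⟨q2, β2, e, Run.eps hδ r⟩
      · exact Or.inr ⟨y1, y2, p, e, Run.eps hδ r1, r2⟩
  | @read q₁ g a q' l s y c hδ h ih =>
    cases β with
    | nil =>
      right
      refine ⟨[], a :: y, q, rfl, Run.refl _, ?_⟩
      simp only [List.nil_append] at hc
      rw [hc]
      exact Run.read hδ h
    | cons b β =>
      simp only [List.cons_append, Prod.mk.injEq, List.cons.injEq] at hc
      obtain ⟨rfl, rfl, rfl⟩ := hc
      rcases @ih q' (l ++ β) (by simp) with ⟨q2, β2, e, r⟩ | ⟨y1, y2, p, e, r1, r2⟩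
      · exact Or.inl ⟨q2, β2, e, Run.read hδ r⟩
      · exact Or.inr ⟨a :: y1, y2, p, by simp [e], Run.read hδ r1, r2⟩

/-- `y` can be read from `c`. -/
def Reads (M : DPDA A) (c : M.Q × List M.G) (y : List A) : Prop := ∃ c', M.Run c y c'

theorem Reads.of_append {c : M.Q × List M.G} {y z : List A} (h : M.Reads c (y ++ z)) :
    M.Reads c y := by
  obtain ⟨c', h⟩ := h
  obtain ⟨c1, h1, -⟩ := h.split
  exact ⟨c1, h1⟩

theorem Reads.after {c c1 : M.Q × List M.G} {y z : List A} (h1 : M.Run c y c1)
    (h : M.Reads c (y ++ z)) : M.Reads c1 z := by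
  by_cases hz : z = []
  · subst hz
    exact ⟨c1, Run.refl _⟩
  · obtain ⟨c', h⟩ := h
    exact ⟨c', h1.conf h hz⟩

theorem Reads.ne_nil {q : M.Q} {β : List M.G} {y : List A} (h : M.Reads (q, β) y) (hy : y ≠ []) :
    β ≠ [] := by
  rintro rfl
  obtain ⟨c', h⟩ := h
  cases h
  exact hy rfl

theorem Reads.lift {q : M.Q} {β : List M.G} {y : List A} (α : List M.G)
    (h : M.Reads (q, β) y) : M.Reads (q, β ++ α) y := by
  obtain ⟨⟨q', β'⟩, h⟩ := h
  exact ⟨_, h.lift' α⟩

/-- If `y` can be read from `(q, β ++ α)` but not from `(q, β)`, then at some moment before the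
last letter of `y` is read the stack is `α`. -/
theorem touch_of_not_reads {q : M.Q} {β α : List M.G} {y : List A}
    (h : M.Reads (q, β ++ α) y) (h' : ¬ M.Reads (q, β) y) :
    ∃ y1 y2 p, y = y1 ++ y2 ∧ y2 ≠ [] ∧ M.Run (q, β) y1 (p, []) ∧ M.Reads (p, α) y2 := by
  obtain ⟨c', h⟩ := h
  rcases h.touch with ⟨q', β', -, r⟩ | ⟨y1, y2, p, e, r1, r2⟩
  · exact absurd ⟨_, r⟩ h'
  · refine ⟨y1, y2, p, e, ?_, r1, _, r2⟩
    rintro rfl
    apply h'
    rw [e]
    simpa using ⟨_, r1⟩

end LVP.DPDA
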