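import Pool.Agent.H82.LVP.Growth

/-!
# Stair configurations

Proof of `stair`. Start: `Good M n [] q0 [Z0] []` (all blocks can be read from the initial
configuration, because every word of main letters is a prefix of a word of the language).
By `growth` there are sequences `u_j, q_j, β_j, α_j, y_j, g_j` (`j : ℕ`) with
`Good M n u_j q_j β_j α_j`, `u_{j+1} = u_j ++ y_j`, `α_{j+1} = g_j :: α_j`, `1 ≤ y_j.count plus`,
`Run (q_j, β_j) y_j (q_{j+1}, β_{j+1} ++ [g_j])`. So `|α_j| = j` and `u_j.count plus ≥ j`.

Fix `k`. Put `Y_j = y_k ++ ... ++ y_{j-1}` for `j ≥ k`. Choose `β'` of minimal length such that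
`β_k = β' ++ δ` for some `δ` and `Reads (q_k, β') Y_j` for all `j ≥ k` (`β' = β_k` has this property,
`β' = []` has not). So `β' = β'' ++ [g]` and there is `j` with `¬ Reads (q_k, β'') Y_j`; by
`touch_of_not_reads` there are `z1, z2, p` with `Y_j = z1 ++ z2`, `Run (q_k, β'') z1 (p, [])`, so
`Run (q_k, β') z1 (p, [g])` and `Run ini (u_k ++ z1) (p, g :: (δ ++ α_k))`. This is the required
configuration with `v = u_k ++ z1`, `α = δ ++ α_k`; it remains to show `Surv M p g`. Choose
`J ≥ j` with `J ≥ |δ ++ α_k|`. By `Reads.after`, from `(p, [g])` one can read the rest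
`Y_J = z1 ++ z3`: `Run (p, [g]) z3 (q', B)` for some `(q', B)`; we may choose `(q', B)` with
`(q', B ++ δ ++ α_k) = (q_J, β_J ++ α_J)` (use `Run.touch` or `Run.conf` for the run to
`(q_J, ...)` plus something; e.g. apply `Run.touch` to `Run (p, [g] ++ (δ ++ α_k)) z3 (q_J, β_J ++ α_J)`,
which is obtained by `Run.conf` if `z3 ≠ []`, and show that the second alternative contradicts
`Reads (q_k, β') Y_{J+1}`). As `|α_J| = J ≥ |δ ++ α_k|`, `B = β_J ++ ρ` for some `ρ`. Finally, from
`(q_J, β_J)` one can read, by `ext` with `x = plus`, `x' = minus` once and then iterating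
`ext` with `x = x' = minus`, a word with one `plus` and an arbitrary number of `minus`
(each application needs the blocky prefix read so far, and `Rob`).
-/

namespace LVP

open DPDA

private theorem bits_mainS (w : List Bool) : ∀ a ∈ bits w, a.Main := by
  intro a ha
  obtain ⟨b, _, rfl⟩ := List.mem_map.1 ha
  trivial

private theorem bits_count_plus (w : List Bool) : (bits w).count Ltr.plus = 0 := by
  rw [List.count_eq_zero]
  intro h
  obtain ⟨b, _, hb⟩ := List.mem_map.1 h
  cases hb

private theorem bits_count_minus (w : List Bool) : (bits w).count Ltr.minus = 0 := by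
  rw [List.count_eq_zero]
  intro h
  obtain ⟨b, _, hb⟩ := List.mem_map.1 h
  cases hb

private theorem sgn_main {x : Ltr} (hx : x.IsSgn) : x.Main := by
  cases x <;> trivial

private theorem blocky_append {u : List Ltr} (hu : Blocky u) (w : List Bool) {x : Ltr}
    (hx : x.IsSgn) : Blocky (u ++ (bits w ++ [x])) := by
  refine ⟨fun a ha => ?_, fun h => ?_⟩
  · rw [List.mem_append, List.mem_append, List.mem_singleton] at ha
    rcases ha with ha | ha | rfl
    · exact hu.1 a ha
    · exact bits_mainS w a ha
    · exact sgn_main hx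
  · have h1 : (u ++ (bits w ++ [x])).getLast h = x := by
      apply Option.some_injective
      rw [← List.getLast?_eq_some_getLast h, ← List.append_assoc, List.getLast?_concat]
    rw [h1]
    exact hx

/-- Every word of main letters can be read from the initial configuration. -/
private theorem reads_main {M : DPDA Ltr} (hM : ∀ w, w ∈ Lang ↔ M.Accepts w) {u : List Ltr}
    (hu : ∀ a ∈ u, a.Main) : M.Reads M.ini u := by
  have h1 : (u ++ (List.replicate (u.count Ltr.plus) Ltr.minus ++
      List.replicate (u.count Ltr.minus) Ltr.plus)) ++ [Ltr.fin] ∈ Lang := by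
    rw [mem_fin]
    · simp [List.count_append, List.count_replicate]
      omega
    · intro a ha
      rw [List.mem_append, List.mem_append] at ha
      rcases ha with ha | ha | ha
      · exact hu a ha
      · rw [List.eq_of_mem_replicate ha]
        trivial
      · rw [List.eq_of_mem_replicate ha]
        trivial
  obtain ⟨c, hc, -⟩ := (hM _).1 h1
  have h2 : M.Reads M.ini (u ++ (List.replicate (u.count Ltr.plus) Ltr.minus ++
      List.replicate (u.count Ltr.minus) Ltr.plus) ++ [Ltr.fin]) := ⟨c, hc⟩
  rw [List.append_assoc] at h2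
  exact h2.of_append

private theorem good_start {M : DPDA Ltr} (hM : ∀ w, w ∈ Lang ↔ M.Accepts w) (n : ℕ) :
    Good M n [] M.q0 [M.Z0] [] where
  blocky := ⟨fun a ha => by simp at ha, fun h => absurd rfl h⟩
  noMinus := rfl
  run := Run.refl _
  rob := by
    unfold Rob
    have h1 : ∀ w : Fin n → Bool, M.Reads (M.q0, [M.Z0]) (bits (List.ofFn w) ++ [Ltr.plus]) := by
      intro w
      apply reads_main hM
      intro a ha
      rw [List.mem_append, List.mem_singleton] at ha
      rcases ha with ha | rfl
      · exact bits_mainS _ a ha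
      · trivial
    have h2 : Nat.card {w : Fin n → Bool //
        M.Reads (M.q0, [M.Z0]) (bits (List.ofFn w) ++ [Ltr.plus])} = 2 ^ n := by
      rw [Nat.card_congr (Equiv.subtypeUnivEquiv h1), Nat.card_eq_fintype_card]
      simp
    rw [h2]
    omega

/-- From a configuration robust for `minus` one can read arbitrarily many blocks ending with
`minus`. -/
private theorem minus_iter {M : DPDA Ltr} (hM : ∀ w, w ∈ Lang ↔ M.Accepts w) {n : ℕ}
    (hn : 4 * Nat.card M.Q * (n + 1) < 2 ^ n) (t : ℕ) : ∀ {u : List Ltr} (_ : Blocky u) {q : M.Q}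
    {β α : List M.G} (_ : M.Run M.ini u (q, β ++ α)) (_ : Rob M n Ltr.minus (q, β)),
    ∃ y : List Ltr, (∀ a ∈ y, a.Main) ∧ y.count Ltr.plus = 0 ∧ y.count Ltr.minus = t ∧
      M.Reads (q, β) y := by
  induction t with
  | zero =>
    intro u _ q β α _ _
    exact ⟨[], fun a ha => by simp at ha, rfl, rfl, _, Run.refl _⟩
  | succ t ih =>
    intro u hu q β α hr hR
    obtain ⟨w, q', β', h1, h2⟩ := ext hM hn hu hr (x := Ltr.minus) trivial hR
      (x' := Ltr.minus) trivial
    have h3 : M.Run M.ini (u ++ (bits (List.ofFn w) ++ [Ltr.minus])) (q', β' ++ α) :=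
      hr.trans (h1.lift' α)
    obtain ⟨y, hy1, hy2, hy3, c, hc⟩ := ih (blocky_append hu _ (x := Ltr.minus) trivial) h3 h2
    refine ⟨(bits (List.ofFn w) ++ [Ltr.minus]) ++ y, fun a ha => ?_, ?_, ?_, c, h1.trans hc⟩
    · rw [List.mem_append, List.mem_append, List.mem_singleton] at ha
      rcases ha with (ha | rfl) | ha
      · exact bits_mainS _ a ha
      · trivial
      · exact hy1 a ha
    · simp [List.count_append, bits_count_plus, hy2]
    · simp [List.count_append, bits_count_minus, hy3]

/-- The situations. -/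
private structure Sit (M : DPDA Ltr) (n : ℕ) where
  u : List Ltr
  q : M.Q
  β : List M.G
  α : List M.G
  good : Good M n u q β α

private theorem sit_next {M : DPDA Ltr} (hM : ∀ w, w ∈ Lang ↔ M.Accepts w) {n : ℕ}
    (hn : 4 * Nat.card M.Q * (n + 1) < 2 ^ n) (S : Sit M n) :
    ∃ (S' : Sit M n) (y : List Ltr) (g : M.G), 1 ≤ y.count Ltr.plus ∧ S'.u = S.u ++ y ∧
      S'.α = g :: S.α ∧ M.Run (S.q, S.β) y (S'.q, S'.β ++ [g]) := by
  obtain ⟨y, q', β', g, h1, h2, h3⟩ := growth hM hn S.good
  exact ⟨⟨_, _, _, _, h3⟩, y, g, h1, rfl, rfl, h2⟩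

/-- The sequence of situations. -/
private theorem sit_seq {M : DPDA Ltr} (hM : ∀ w, w ∈ Lang ↔ M.Accepts w) {n : ℕ}
    (hn : 4 * Nat.card M.Q * (n + 1) < 2 ^ n) :
    ∃ (S : ℕ → Sit M n) (y : ℕ → List Ltr) (g : ℕ → M.G), ∀ j,
      1 ≤ (y j).count Ltr.plus ∧ (S (j + 1)).u = (S j).u ++ y j ∧
      (S (j + 1)).α = g j :: (S j).α ∧
      M.Run ((S j).q, (S j).β) (y j) ((S (j + 1)).q, (S (j + 1)).β ++ [g j]) := by
  choose nx Y G h using sit_next hM hn
  let S : ℕ → Sit M n := fun j => Nat.rec ⟨_, _, _, _, good_start hM n⟩ (fun _ s => nx s) j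
  exact ⟨S, fun j => Y (S j), fun j => G (S j), fun j => h (S j)⟩

theorem stair {M : DPDA Ltr} (hM : ∀ w, w ∈ Lang ↔ M.Accepts w) {n : ℕ}
    (hn : 4 * Nat.card M.Q * (n + 1) < 2 ^ n) (k : ℕ) :
    ∃ (p : M.Q) (g : M.G) (α : List M.G) (v : List Ltr), Surv M p g ∧ (∀ a ∈ v, a.Main) ∧
      v.count Ltr.minus = 0 ∧ k ≤ v.count Ltr.plus ∧ M.Run M.ini v (p, g :: α) := by
  classical
  obtain ⟨S, y, G, hS⟩ := sit_seq hM hn
  have hcount : ∀ j, j ≤ (S j).u.count Ltr.plus := by
    intro j
    induction j with
    | zero => exact Nat.zero_le _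
    | succ j ih =>
      obtain ⟨h1, h2, -, -⟩ := hS j
      rw [h2, List.count_append]
      omega
  -- the words `Z j` and the stacks `ρ j`
  have hZ : ∀ j, ∃ (Z : List Ltr) (ρ : List M.G), (S (k + j)).u = (S k).u ++ Z ∧ ρ.length = j ∧
      M.Run ((S k).q, (S k).β) Z ((S (k + j)).q, (S (k + j)).β ++ ρ) := by
    intro j
    induction j with
    | zero => exact ⟨[], [], by simp, rfl, by simpa using Run.refl _⟩
    | succ j ih =>
      obtain ⟨Z, ρ, h1, h2, h3⟩ := ih
      obtain ⟨-, h5, -, h7⟩ := hS (k + j)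
      refine ⟨Z ++ y (k + j), G (k + j) :: ρ, ?_, ?_, ?_⟩
      · have h8 : (S (k + (j + 1))).u = (S (k + j)).u ++ y (k + j) := h5
        rw [h8, h1, List.append_assoc]
      · simp [h2]
      · have h8 := h3.trans (h7.lift' ρ)
        rw [List.append_assoc] at h8
        exact h8
  choose Z ρ hZu hρ hZr using hZ
  have hZmono : ∀ j i, ∃ r, Z (j + i) = Z j ++ r ∧ i ≤ r.count Ltr.plus := by
    intro j i
    induction i with
    | zero => exact ⟨[], by simp, Nat.zero_le _⟩
    | succ i ih =>
      obtain ⟨r, hr, hr'⟩ := ih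
      obtain ⟨h4, h5, -, -⟩ := hS (k + (j + i))
      refine ⟨r ++ y (k + (j + i)), ?_, ?_⟩
      · have h6 : (S k).u ++ Z (j + (i + 1)) = (S k).u ++ (Z (j + i) ++ y (k + (j + i))) := by
          rw [← List.append_assoc, ← hZu, ← hZu]
          exact h5
        rw [List.append_cancel_left h6, hr, List.append_assoc]
      · rw [List.count_append]
        omega
  have hZ0 : Z 0 = [] := by
    have h1 := hZu 0
    rw [Nat.add_zero] at h1
    have h2 : (S k).u ++ [] = (S k).u ++ Z 0 := by rw [List.append_nil]; exact h1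
    exact (List.append_cancel_left h2).symm
  -- the minimal prefix
  let P : ℕ → Prop := fun l => ∀ j, M.Reads ((S k).q, (S k).β.take l) (Z j)
  have hP : ∃ l, P l := ⟨(S k).β.length, fun j => by
    rw [List.take_length]
    exact ⟨_, hZr j⟩⟩
  have hP0 : ¬ P 0 := by
    intro h
    have h1 := h 1
    rw [List.take_zero] at h1
    refine h1.ne_nil ?_ rfl
    obtain ⟨r, hr, hr'⟩ := hZmono 0 1
    rw [Nat.zero_add, hZ0, List.nil_append] at hr
    rw [hr]
    rintro rfl
    simp at hr'
  have hfind := Nat.find_spec hP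
  obtain ⟨l, hl⟩ : ∃ l, Nat.find hP = l + 1 := by
    rcases h : Nat.find hP with _ | l
    · rw [h] at hfind
      exact absurd hfind hP0
    · exact ⟨l, rfl⟩
  rw [hl] at hfind
  have hnot : ¬ P l := Nat.find_min hP (by omega)
  have hlt : l < (S k).β.length := by
    by_contra hcon
    push Not at hcon
    apply hnot
    intro j
    rw [List.take_of_length_le hcon]
    exact ⟨_, hZr j⟩
  set β'' := (S k).β.take l with hβ''
  set δ := (S k).β.drop (l + 1) with hδ
  set g := (S k).β[l] with hg
  have hβ' : (S k).β.take (l + 1) = β'' ++ [g] := by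
    rw [hβ'', hg, List.take_succ_eq_append_getElem hlt]
  have hβ : (S k).β = β'' ++ ([g] ++ δ) := by
    rw [← List.append_assoc, ← hβ', hδ, List.take_append_drop]
  obtain ⟨j, hj⟩ : ∃ j, ¬ M.Reads ((S k).q, β'') (Z j) := by
    by_contra hcon
    push Not at hcon
    exact hnot hcon
  have hread : ∀ j, M.Reads ((S k).q, β'' ++ [g]) (Z j) := by
    intro j
    have := hfind j
    rwa [hβ'] at this
  obtain ⟨z1, z2, p, hz, hz2, hrun1, -⟩ := touch_of_not_reads (hread j) hj
  -- main letters
  have hmainZ : ∀ j, ∀ a ∈ Z j, a.Main := by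
    intro j a ha
    apply (S (k + j)).good.blocky.1
    rw [hZu]
    exact List.mem_append_right _ ha
  refine ⟨p, g, δ ++ (S k).α, (S k).u ++ z1, ?_, ?_, ?_, ?_, ?_⟩
  · -- `Surv`
    intro T
    set J := j + δ.length with hJ
    obtain ⟨r, hr, -⟩ := hZmono j δ.length
    rw [← hJ] at hr
    have hzJ : Z J = z1 ++ (z2 ++ r) := by rw [hr, hz, List.append_assoc]
    have hne : z2 ++ r ≠ [] := by
      intro h
      exact hz2 (List.append_eq_nil_iff.1 h).1
    have h1 : M.Run ((S k).q, (S k).β) z1 (p, [g] ++ δ) := by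
      rw [hβ]
      have := hrun1.lift' ([g] ++ δ)
      simpa using this
    have h2 := hZr J
    rw [hzJ] at h2
    have h3 : M.Run (p, [g] ++ δ) (z2 ++ r) ((S (k + J)).q, (S (k + J)).β ++ ρ J) :=
      h1.conf h2 hne
    rcases h3.touch with ⟨q', B, e, r1⟩ | ⟨y1, y2, p', e, r1, -⟩
    · rw [Prod.mk.injEq] at e
      obtain ⟨rfl, e⟩ := e
      obtain ⟨ρ', hρ'⟩ : ∃ ρ', B = (S (k + J)).β ++ ρ' := by
        rcases List.append_eq_append_iff.1 e with ⟨as, h4, h5⟩ | ⟨bs, h4, h5⟩
        · exact ⟨as, h4⟩
        · have h6 := congrArg List.length h4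
          have h7 := congrArg List.length h5
          rw [List.length_append] at h6 h7
          have h8 := hρ J
          have h9 : bs.length = 0 := by omega
          rw [List.length_eq_zero_iff] at h9
          subst h9
          exact ⟨[], by rw [List.append_nil] at h4 ⊢; exact h4.symm⟩
      obtain ⟨w, q1, β1, hw1, hw2⟩ := ext hM hn (S (k + J)).good.blocky (S (k + J)).good.run
        (x := Ltr.plus) trivial (S (k + J)).good.rob (x' := Ltr.minus) trivial
      have hw3 : M.Run M.ini ((S (k + J)).u ++ (bits (List.ofFn w) ++ [Ltr.plus]))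
          (q1, β1 ++ (S (k + J)).α) := (S (k + J)).good.run.trans (hw1.lift' _)
      obtain ⟨y', hy1, hy2, hy3, ⟨q2, β2⟩, hc⟩ := minus_iter hM hn
        ((z2 ++ r).count Ltr.plus + 1 + T)
        (blocky_append (S (k + J)).good.blocky _ (x := Ltr.plus) trivial) hw3 hw2
      have hz3main : ∀ a ∈ z2 ++ r, a.Main := by
        intro a ha
        apply hmainZ J
        rw [hzJ]
        exact List.mem_append_right _ ha
      have hz3minus : (z2 ++ r).count Ltr.minus = 0 := by
        have h4 := (S (k + J)).good.noMinus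
        rw [hZu, hzJ, List.count_append, List.count_append] at h4
        omega
      rw [hρ'] at r1
      generalize z2 ++ r = z3 at r1 hy3 hz3main hz3minus
      refine ⟨z3 ++ ((bits (List.ofFn w) ++ [Ltr.plus]) ++ y'), fun a ha => ?_, ?_, ?_⟩
      · rw [List.mem_append, List.mem_append, List.mem_append, List.mem_singleton] at ha
        rcases ha with ha | (ha | rfl) | ha
        · exact hz3main a ha
        · exact bits_mainS _ a ha
        · trivial
        · exact hy1 a ha
      · simp only [List.count_append, hz3minus, bits_count_plus, bits_count_minus, hy2, hy3]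
        simp
      · exact ⟨_, r1.trans ((hw1.trans hc).lift' ρ')⟩
    · exfalso
      obtain ⟨r', hr', hr''⟩ := hZmono J 1
      have h4 : Z (J + 1) = (z1 ++ y1) ++ (y2 ++ r') := by
        rw [hr', hzJ, e]
        simp
      have h5 := hread (J + 1)
      rw [h4] at h5
      have h6 : M.Run ((S k).q, β'' ++ [g]) (z1 ++ y1) (p', []) := by
        refine Run.trans ?_ r1
        simpa using hrun1.lift' [g]
      have h7 := h5.after h6
      refine h7.ne_nil ?_ rfl
      intro h8
      rw [(List.append_eq_nil_iff.1 h8).2] at hr''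
      simp at hr''
  · intro a ha
    rw [List.mem_append] at ha
    rcases ha with ha | ha
    · exact (S k).good.blocky.1 a ha
    · apply hmainZ j
      rw [hz]
      exact List.mem_append_left _ ha
  · have h4 := (S (k + j)).good.noMinus
    rw [hZu, hz, List.count_append, List.count_append] at h4
    rw [List.count_append]
    omega
  · rw [List.count_append]
    exact (hcount k).trans (Nat.le_add_right _ _)
  · have h1 := (S k).good.run
    refine h1.trans ?_
    rw [hβ]
    have := hrun1.lift' ([g] ++ δ ++ (S k).α)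
    simpa using this

end LVP
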