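import Pool.Agent.H82.LVP.Inv
import Pool.Agent.H82.LVP.LangFacts

/-!
# The verdicts, and the language is in `LVCF*`

A word is `u`, or `u ++ fin :: z`, or `u ++ ask :: z` with `u` consisting of main letters.
* `u`: state `main`, rejecting; `u` is not in the language.
* `u ++ [fin]`: `run_zer`; `u ++ fin :: z` with `z ≠ []`: state `dead`; not in the language.
* `u ++ ask :: z`, no sign in `u`: `dead`; not in the language.
* `u ++ ask :: z`, `c = 0`, some sign: `lost`, verdict `neu`; this happens only for `i = -nsgn u`.
* `u ++ ask :: z`, `c ≠ 0`, some sign: the machine pops `w'` and `sep`, then compares `z` with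
  `w.reverse`: `acc` if `z = bits w.reverse`, else `rej`; use `mem_ask`.
-/

namespace LVP

open scoped ENNReal

/-! ### Words -/

private theorem split_word (w : List Ltr) : (∀ a ∈ w, a.Main) ∨
    ∃ (u : List Ltr) (x : Ltr) (z : List Ltr), w = u ++ x :: z ∧ (∀ a ∈ u, a.Main) ∧
      (x = Ltr.ask ∨ x = Ltr.fin) := by
  induction w with
  | nil => left; simp
  | cons a w ih =>
    by_cases ha : a = Ltr.ask ∨ a = Ltr.fin
    · right
      exact ⟨[], a, w, rfl, by simp, ha⟩
    · have hm : a.Main := by
        cases a <;> simp_all [Ltr.Main]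
      rcases ih with ih | ⟨u, x, z, h1, h2, h3⟩
      · left
        intro b hb
        rcases List.mem_cons.1 hb with rfl | hb
        · exact hm
        · exact ih b hb
      · right
        refine ⟨a :: u, x, z, by rw [h1]; rfl, ?_, h3⟩
        intro b hb
        rcases List.mem_cons.1 hb with rfl | hb
        · exact hm
        · exact h2 b hb

private theorem split_unique {u u' : List Ltr} {x x' : Ltr} {z z' : List Ltr}
    (hu : ∀ a ∈ u, a.Main) (hu' : ∀ a ∈ u', a.Main) (hx : ¬ x.Main) (hx' : ¬ x'.Main)
    (h : u ++ x :: z = u' ++ x' :: z') : u = u' ∧ x = x' ∧ z = z' := by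
  induction u generalizing u' with
  | nil =>
    cases u' with
    | nil =>
      simp only [List.nil_append, List.cons.injEq] at h
      exact ⟨rfl, h.1, h.2⟩
    | cons a u' =>
      simp only [List.nil_append, List.cons_append, List.cons.injEq] at h
      exact absurd (h.1 ▸ hu' a (by simp)) hx
  | cons a u ih =>
    cases u' with
    | nil =>
      simp only [List.nil_append, List.cons_append, List.cons.injEq] at h
      exact absurd (h.1 ▸ hu a (by simp)) hx'
    | cons b u' =>
      simp only [List.cons_append, List.cons.injEq] at h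
      obtain ⟨h1, h2, h3⟩ := ih (u' := u') (fun c hc => hu c (by simp [hc]))
        (fun c hc => hu' c (by simp [hc])) h.2
      exact ⟨by rw [h.1, h1], h2, h3⟩

private theorem main_bits {w : List Bool} : ∀ a ∈ bits w, a.Main := by
  intro a ha
  unfold bits at ha
  rw [List.mem_map] at ha
  obtain ⟨b, -, rfl⟩ := ha
  trivial

private theorem main_sgn {x : Ltr} (hx : x.IsSgn) : x.Main := by
  cases x <;> simp_all [Ltr.IsSgn, Ltr.Main]

private theorem main_block {v : List Ltr} {w w' : List Bool} {x : Ltr} (hv : ∀ a ∈ v, a.Main)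
    (hx : x.IsSgn) : ∀ a ∈ v ++ bits w ++ [x] ++ bits w', a.Main := by
  intro a ha
  simp only [List.mem_append, List.mem_singleton] at ha
  rcases ha with ((ha | ha) | rfl) | ha
  · exact hv a ha
  · exact main_bits a ha
  · exact main_sgn hx
  · exact main_bits a ha

private theorem not_mem_main {u : List Ltr} (hu : ∀ a ∈ u, a.Main) : u ∉ Lang := by
  rintro (⟨u', -, -, h⟩ | ⟨v, w, w', x, -, -, -, h⟩)
  · exact hu Ltr.fin (by rw [h]; simp)
  · exact hu Ltr.ask (by rw [h]; simp)

private theorem not_mem_fin {u z : List Ltr} (hu : ∀ a ∈ u, a.Main) (hz : z ≠ []) :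
    u ++ Ltr.fin :: z ∉ Lang := by
  rintro (⟨u', hu', -, h⟩ | ⟨v, w, w', x, hv, -, hx, h⟩)
  · exact hz (split_unique hu hu' (x := Ltr.fin) (x' := Ltr.fin) (fun h => h) (fun h => h) h).2.2
  · have h' : u ++ Ltr.fin :: z = (v ++ bits w ++ [x] ++ bits w') ++ Ltr.ask :: bits w.reverse := by
      rw [h]; simp
    have := (split_unique hu (main_block hv hx) (x := Ltr.fin) (x' := Ltr.ask) (fun h => h)
      (fun h => h) h').2.1
    cases this

private theorem not_mem_ask {u z : List Ltr} (hu : ∀ a ∈ u, a.Main) (hs : nsgn u = 0) :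
    u ++ Ltr.ask :: z ∉ Lang := by
  rintro (⟨u', hu', -, h⟩ | ⟨v, w, w', x, hv, -, hx, h⟩)
  · have := (split_unique hu hu' (x := Ltr.ask) (x' := Ltr.fin) (fun h => h) (fun h => h) h).2.1
    cases this
  · have h' : u ++ Ltr.ask :: z = (v ++ bits w ++ [x] ++ bits w') ++ Ltr.ask :: bits w.reverse := by
      rw [h]; simp
    have h2 := (split_unique hu (main_block hv hx) (x := Ltr.ask) (x' := Ltr.ask) (fun h => h)
      (fun h => h) h').1
    have hmem : x ∈ u := by rw [h2]; simp
    unfold nsgn at hs
    have hp : u.count Ltr.plus = 0 := by omega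
    have hm : u.count Ltr.minus = 0 := by omega
    rw [List.count_eq_zero] at hp hm
    cases x with
    | plus => exact hp hmem
    | minus => exact hm hmem
    | bit b => exact hx
    | ask => exact hx
    | fin => exact hx

/-! ### Runs -/

section

variable {K : ℕ} [NeZero K]

private theorem rtrans {A : Type} {D : DetM A} {c c' c'' : D.Q × List D.G} {y z : List A}
    (h : D.Run c y c') (h' : D.Run c' z c'') : D.Run c (y ++ z) c'' := by
  induction h with
  | refl c => simpa using h'
  | eps hδ _ ih => exact DetM.Run.eps hδ (ih h')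
  | read hδ _ ih => exact DetM.Run.read hδ (ih h')

private theorem run_dead (g : SG) (s : List SG) (z : List Ltr) :
    (mach K).Run (.dead, g :: s) z (.dead, g :: s) := by
  induction z with
  | nil => exact DetM.Run.refl _
  | cons a z ih => exact DetM.Run.read (D := mach K) (f := fun _ => (SQ.dead, [g])) rfl ih

private theorem run_okk (g : SG) (s : List SG) {z : List Ltr} (hz : z ≠ []) :
    (mach K).Run (.okk, g :: s) z (.dead, g :: s) := by
  cases z with
  | nil => exact absurd rfl hz
  | cons a z => exact DetM.Run.read (D := mach K) (f := fun _ => (SQ.dead, [g])) rfl (run_dead g s z)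

private theorem run_lost (g : SG) (s : List SG) (z : List Ltr) :
    (mach K).Run (.lost, g :: s) z (.lost, g :: s) := by
  induction z with
  | nil => exact DetM.Run.refl _
  | cons a z ih => exact DetM.Run.read (D := mach K) (f := fun _ => (SQ.lost, [g])) rfl ih

private theorem stays_of_read {A : Type} {D : DetM A} {q : D.Q} {g : D.G} {s : List D.G}
    {f : A → D.Q × List D.G} {c : D.Q × List D.G} (hf : D.act q g = Sum.inr f)
    (h : D.Run (q, g :: s) [] c) : c = (q, g :: s) := by
  cases h with
  | refl => rfl
  | eps hδ _ =>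
    rw [hf] at hδ
    cases hδ

private theorem lost_stays {g : SG} {s : List SG} {c : SQ K × List SG}
    (h : (mach K).Run (.lost, g :: s) [] c) : mkind c.1 = Kind.neu := by
  have hc := stays_of_read (D := mach K) (f := fun _ => (SQ.lost, [g])) rfl h
  subst hc
  rfl

private theorem run_pop (s : Bool) (l : List Bool) (R : List SG) :
    (mach K).Run (.popq s, sbits l ++ R) [] (.popq s, R) := by
  induction l with
  | nil => exact DetM.Run.refl _
  | cons b l ih =>
    exact DetM.Run.eps (D := mach K) (m := (SQ.popq s, [])) rfl ih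

private theorem cst_cons (v : ℤ) : ∃ g R, cst v = g :: R ∧ (g = SG.bot ∨ ∃ x, g = SG.cnt x) := by
  unfold cst
  cases h : v.natAbs with
  | zero => exact ⟨SG.bot, [], rfl, Or.inl rfl⟩
  | succ k => exact ⟨_, _, rfl, Or.inr ⟨_, rfl⟩⟩

private theorem run_popend (s : Bool) {g : SG} (R : List SG)
    (hg : g = SG.bot ∨ ∃ x, g = SG.cnt x) :
    (mach K).Run (.popq s, g :: R) [] ((if s then SQ.lost else SQ.dead), g :: R) := by
  rcases hg with rfl | ⟨x, rfl⟩
  · exact DetM.Run.eps (D := mach K) (m := ((if s then SQ.lost else SQ.dead), [SG.bot])) rfl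
      (DetM.Run.refl _)
  · exact DetM.Run.eps (D := mach K) (m := ((if s then SQ.lost else SQ.dead), [SG.cnt x])) rfl
      (DetM.Run.refl _)

private theorem run_cmp {g : SG} (hg : ∀ y, g ≠ SG.bit y) (R : List SG) (l : List Bool) :
    ∀ z : List Ltr, ∃ c : SQ K × List SG, (mach K).Run (.cmp, sbits l ++ g :: R) z c ∧
      (z = bits l → mkind c.1 = Kind.acc) ∧ (z ≠ bits l → mkind c.1 = Kind.rej) := by
  induction l with
  | nil =>
    intro z
    have h0 : (mach K).Run (.cmp, sbits [] ++ g :: R) [] (.okk, g :: R) := by
      cases g with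
      | bit y => exact absurd rfl (hg y)
      | bot => exact DetM.Run.eps (D := mach K) (m := (SQ.okk, [SG.bot])) rfl (DetM.Run.refl _)
      | sep => exact DetM.Run.eps (D := mach K) (m := (SQ.okk, [SG.sep])) rfl (DetM.Run.refl _)
      | cnt x => exact DetM.Run.eps (D := mach K) (m := (SQ.okk, [SG.cnt x])) rfl (DetM.Run.refl _)
    by_cases hz : z = []
    · subst hz
      exact ⟨_, h0, fun _ => rfl, fun h => absurd rfl h⟩
    · exact ⟨_, rtrans h0 (run_okk g R hz), fun h => absurd h hz, fun _ => rfl⟩
  | cons b l ih =>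
    intro z
    have h0 : (mach K).Run (.cmp, sbits (b :: l) ++ g :: R) []
        (.cmpr, SG.bit b :: (sbits l ++ g :: R)) :=
      DetM.Run.eps (D := mach K) (m := (SQ.cmpr, [SG.bit b])) rfl (DetM.Run.refl _)
    cases z with
    | nil =>
      refine ⟨_, h0, fun h => ?_, fun _ => rfl⟩
      simp [bits] at h
    | cons a z =>
      by_cases ha : a = Ltr.bit b
      · subst ha
        obtain ⟨c, hc, h1, h2⟩ := ih z
        refine ⟨c, rtrans h0 ?_, fun h => h1 ?_, fun h => h2 ?_⟩
        · refine DetM.Run.read (D := mach K) rfl ?_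
          simp only [if_true]
          exact hc
        · simp only [bits, List.map_cons, List.cons.injEq] at h
          exact h.2
        · intro h'
          apply h
          rw [h']
          rfl
      · refine ⟨(.dead, SG.bit b :: (sbits l ++ g :: R)), rtrans h0 ?_, fun h => ?_, fun _ => rfl⟩
        · refine DetM.Run.read (D := mach K) rfl ?_
          cases a with
          | bit x =>
            have hxb : x ≠ b := fun h => ha (by rw [h])
            simp only [hxb, if_false]
            exact run_dead _ _ z
          | plus => exact run_dead _ _ z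
          | minus => exact run_dead _ _ z
          | ask => exact run_dead _ _ z
          | fin => exact run_dead _ _ z
        · simp only [bits, List.map_cons, List.cons.injEq] at h
          exact absurd h.1 ha

end

private theorem stack_ne {K : ℕ} [NeZero K] {i : ZMod K} {u : List Ltr} {c : ZMod K} {b : Buf K}
    {s : Bool} {st : List SG} (h : Inv i u c b s st) : ∃ g R, st = g :: R := by
  obtain ⟨G, v, -, rfl, -⟩ := h.shape
  obtain ⟨g, R, h2, -⟩ := cst_cons v
  cases G with
  | nil => exact ⟨g, R, by simpa using h2⟩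
  | cons g' G => exact ⟨g', G ++ cst v, rfl⟩

private theorem read_ask {K : ℕ} [NeZero K] {c : ZMod K} {b : Buf K} {s : Bool} {st : List SG}
    (h : ∃ g R, st = g :: R) : (mach K).Run (.main c b s, st) [Ltr.ask] (.popq s, st) := by
  obtain ⟨g, R, rfl⟩ := h
  exact DetM.Run.read (D := mach K) rfl (DetM.Run.refl _)

private theorem read_fin {K : ℕ} [NeZero K] {c : ZMod K} {b : Buf K} {s : Bool} {st : List SG}
    (h : ∃ g R, st = g :: R) : (mach K).Run (.main c b s, st) [Ltr.fin] (.zer b, st) := by
  obtain ⟨g, R, rfl⟩ := h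
  exact DetM.Run.read (D := mach K) rfl (DetM.Run.refl _)

private theorem run_zer_aux {K : ℕ} [NeZero K] (G : List SG) (hG : ∀ g ∈ G, g.Blk) (v : ℤ)
    (b : Buf K) : ∃ (q : SQ K) (g : SG) (R : List SG), (mach K).Run (.zer b, G ++ cst v) [] (q, g :: R) ∧
      (v + b.1 = 0 → q = SQ.okk) ∧ (v + b.1 ≠ 0 → q = SQ.dead) := by
  obtain ⟨g, R, h⟩ := run_zer K G hG v b
  exact ⟨_, g, R, h, fun h0 => if_pos h0, fun h0 => if_neg h0⟩

private theorem out_of_run {K : ℕ} [NeZero K] {c : SQ K × List SG} {w : List Ltr}
    {c' : SQ K × List SG} {k : Kind} (h : (mach K).Run c w c') (hk : k ≠ Kind.neu)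
    (hc : mkind c'.1 = k) : (mach K).Out c w k :=
  ⟨c', h, fun h' => absurd h' hk, fun _ => hc⟩

theorem verdicts (K : ℕ) [NeZero K] (w : List Ltr) :
    ∃ v : ZMod K → Kind, (∀ i, (mach K).Out (.main i (bzero K) false, [SG.bot]) w (v i)) ∧
      (w ∈ Lang → ∀ i, v i ≠ Kind.rej) ∧ (w ∉ Lang → ∀ i, v i ≠ Kind.acc) ∧
      (∀ i j, v i = Kind.neu → v j = Kind.neu → i = j) := by
  suffices h : ∃ f : ZMod K, ∀ i : ZMod K, ∃ k : Kind,
      (mach K).Out (.main i (bzero K) false, [SG.bot]) w k ∧
      (w ∈ Lang → k ≠ Kind.rej) ∧ (w ∉ Lang → k ≠ Kind.acc) ∧ (k = Kind.neu → i = f) by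
    obtain ⟨f, h⟩ := h
    choose v h1 h2 h3 h4 using h
    exact ⟨v, h1, fun hw i => h2 i hw, fun hw i => h3 i hw,
      fun i j hi hj => (h4 i hi).trans (h4 j hj).symm⟩
  rcases split_word w with hw | ⟨u, x, z, rfl, hu, hx⟩
  · refine ⟨0, fun i => ?_⟩
    obtain ⟨c, b, s, st, hr, -⟩ := exists_inv K i w hw
    exact ⟨Kind.rej, out_of_run hr (by decide) rfl, fun h => absurd h (not_mem_main hw),
      fun _ => by decide, fun h => by cases h⟩
  · refine ⟨-(nsgn u : ZMod K), fun i => ?_⟩
    obtain ⟨c, b, s, st, hr, hinv⟩ := exists_inv K i u hu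
    have hst := stack_ne hinv
    rcases hx with rfl | rfl
    · -- ask
      have hr1 := rtrans hr (read_ask (c := c) (b := b) (s := s) hst)
      have hsplit : u ++ Ltr.ask :: z = (u ++ [Ltr.ask]) ++ z := by simp
      cases s with
      | false =>
        have hns : nsgn u = 0 := by
          by_contra h0
          have := hinv.hs.2 h0
          cases this
        obtain ⟨w', -, v, rfl⟩ := hinv.cur0 rfl
        obtain ⟨g, R, hg, hg'⟩ := cst_cons v
        rw [hg] at hr1
        have hr2 := rtrans (rtrans (rtrans hr1 (run_pop false w'.reverse (g :: R)))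
          (run_popend false R hg')) (run_dead g R z)
        simp only [List.append_nil] at hr2
        rw [← hsplit] at hr2
        exact ⟨Kind.rej, out_of_run hr2 (by decide) rfl, fun h => absurd h (not_mem_ask hu hns),
          fun _ => by decide, fun h => by cases h⟩
      | true =>
        by_cases hc : c = 0
        · obtain ⟨w', v, rfl⟩ := hinv.cur1 rfl hc
          obtain ⟨g, R, hg, hg'⟩ := cst_cons v
          rw [hg] at hr1
          have hr2 := rtrans (rtrans (rtrans hr1 (run_pop true w'.reverse (g :: R)))
            (run_popend true R hg')) (run_lost g R z)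
          simp only [List.append_nil] at hr2
          rw [← hsplit] at hr2
          refine ⟨Kind.neu, ⟨_, hr2, fun _ c'' h => lost_stays h, fun h => absurd rfl h⟩,
            fun _ => by decide, fun _ => by decide, fun _ => ?_⟩
          have := hinv.hc
          rw [hc] at this
          exact eq_neg_of_add_eq_zero_left this.symm
        · obtain ⟨v0, w, w', x, R, hv0, hv0', hx, rfl, rfl, g, R', rfl, hg⟩ := hinv.cur2 rfl hc
          have hsep : (mach K).Run (.popq true, SG.sep :: (sbits w.reverse ++ g :: R')) []
              (.cmp, sbits w.reverse ++ g :: R') :=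
            DetM.Run.eps (D := mach K) (m := (SQ.cmp, [])) rfl (DetM.Run.refl _)
          obtain ⟨c', hc', h1, h2⟩ := run_cmp (K := K) hg R' w.reverse z
          have hr2 := rtrans (rtrans (rtrans hr1 (run_pop true w'.reverse
            (SG.sep :: (sbits w.reverse ++ g :: R')))) hsep) hc'
          simp only [List.append_nil] at hr2
          rw [← hsplit] at hr2
          have hmem := mem_ask (w := w) (w' := w') (z := z) (show Blocky v0 from ⟨hv0, hv0'⟩) hx
          have hsplit2 : v0 ++ bits w ++ [x] ++ bits w' ++ [Ltr.ask] ++ z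
              = v0 ++ bits w ++ [x] ++ bits w' ++ Ltr.ask :: z := by simp
          rw [hsplit2] at hmem
          by_cases hz : z = bits w.reverse
          · exact ⟨Kind.acc, out_of_run hr2 (by decide) (h1 hz), fun _ => by decide,
              fun h => absurd (hmem.2 hz) h, fun h => by cases h⟩
          · exact ⟨Kind.rej, out_of_run hr2 (by decide) (h2 hz),
              fun h => absurd (hmem.1 h) hz, fun _ => by decide, fun h => by cases h⟩
    · -- fin
      have hr1 := rtrans hr (read_fin (c := c) (b := b) (s := s) hst)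
      have hsplit : u ++ Ltr.fin :: z = (u ++ [Ltr.fin]) ++ z := by simp
      obtain ⟨G, v, hG, rfl, hv⟩ := hinv.shape
      obtain ⟨q, g, R, hz, hq1, hq2⟩ := run_zer_aux G hG v b
      have hr2 := rtrans hr1 hz
      simp only [List.append_nil] at hr2
      by_cases hz0 : z = []
      · subst hz0
        have hm := mem_fin hu
        by_cases h0 : v + b.1 = 0
        · have hq := hq1 h0
          subst hq
          have hmem : u ++ [Ltr.fin] ∈ Lang := by
            rw [hm]
            omega
          exact ⟨Kind.acc, out_of_run hr2 (by decide) rfl, fun _ => by decide,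
            fun h => absurd hmem h, fun h => by cases h⟩
        · have hq := hq2 h0
          subst hq
          have hmem : u ++ [Ltr.fin] ∉ Lang := by
            rw [hm]
            omega
          exact ⟨Kind.rej, out_of_run hr2 (by decide) rfl, fun h => absurd h hmem,
            fun _ => by decide, fun h => by cases h⟩
      · have hr3 : (mach K).Run (q, g :: R) z (.dead, g :: R) := by
          by_cases h0 : v + b.1 = 0
          · have hq := hq1 h0
            subst hq
            exact run_okk g R hz0
          · have hq := hq2 h0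
            subst hq
            exact run_dead g R z
        have hr4 := rtrans hr2 hr3
        rw [← hsplit] at hr4
        exact ⟨Kind.rej, out_of_run hr4 (by decide) rfl, fun h => absurd h (not_mem_fin hu hz0),
          fun _ => by decide, fun h => by cases h⟩

private theorem InLVCF.mono {A : Type} {ε ε' : ℝ≥0∞} {L : Set (List A)} (h : InLVCF ε' L)
    (hε : ε' ≤ ε) : InLVCF ε L := by
  obtain ⟨M, hM⟩ := h
  refine ⟨M, fun w => ?_⟩
  obtain ⟨h1, h2, h3, h4⟩ := hM w
  exact ⟨h1, h2, h3.trans hε, (tsub_le_tsub_left hε 1).trans h4⟩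

private instance : Finite Ltr := by
  let f : Ltr → Option (Fin 4) ⊕ Bool := fun a => match a with
    | .bit b => .inr b
    | .plus => .inl (some 0)
    | .minus => .inl (some 1)
    | .ask => .inl (some 2)
    | .fin => .inl (some 3)
  refine Finite.of_injective f ?_
  intro a b h
  cases a <;> cases b <;> simp_all [f]

theorem inLVCFStar : InLVCFStar Lang := by
  intro ε hε _
  obtain ⟨K, hK⟩ := ENNReal.exists_inv_nat_lt hε.ne'
  have hK0 : 0 < K := by
    rcases Nat.eq_zero_or_pos K with rfl | h
    · simp at hK
    · exact h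
  have : NeZero K := ⟨hK0.ne'⟩
  refine InLVCF.mono (ε' := 1 / K) ?_ (by rw [one_div]; exact hK.le)
  refine inLVCF_of_detM (mach K) K hK0 (fun i => SQ.main (ZMod.finEquiv K i) (bzero K) false) ?_
    SG.bot Lang ?_
  · intro i j hij
    exact (ZMod.finEquiv K).injective (SQ.main.inj hij).1
  · intro w
    obtain ⟨v, h1, h2, h3, h4⟩ := verdicts K w
    exact ⟨fun i => v (ZMod.finEquiv K i), fun i => h1 _, fun h i => h2 h _, fun h i => h3 h _,
      fun i j hi hj => (ZMod.finEquiv K).injective (h4 _ _ hi hj)⟩

end LVP
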